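import Pool.Agent.H448Z.Buch.Ext

/-!
The monomial basis of the Koszul algebra and acyclicity in non-squarefree multidegrees.
-/

set_option autoImplicit false

namespace Pool.Agent.H448Z.Buch

open MvPolynomial

universe u

variable {k : Type u} [Field k] {m : ℕ} {R : Type u} [CommRing R] [Algebra k R]
  (π : MvPolynomial (Fin m) k →ₐ[k] R) (K : Set (Finset (Fin m)))

/-- the exterior algebra -/
abbrev EA (R : Type u) [CommRing R] (m : ℕ) := ExteriorAlgebra R (Fin m → R)

/-- images of the variables -/
noncomputable def gv (i : Fin m) : R := π (X i)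

/-- the differential -/
noncomputable def gD : EA R m →ₗ[R] EA R m := gd (gv π)

/-- the bigrading -/
noncomputable def gbideg (i j : ℕ) : Submodule k (EA R m) :=
  Submodule.span k {x | ∃ (q : ℕ) (p : MvPolynomial (Fin m) k) (l : List (Fin m)),
    i + q = j ∧ p.IsHomogeneous q ∧ l.length = i ∧ x = π p • (l.map (gu R)).prod}

/-- class of a monomial -/
noncomputable def mon (α : Fin m →₀ ℕ) : R := π (monomial α 1)

/-- basis element of the exterior algebra -/
noncomputable def uF (R : Type u) [CommRing R] {m : ℕ} (F : Finset (Fin m)) : EA R m :=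
  gul R (lst F)

/-- basis element of the Koszul algebra -/
noncomputable def cell (F : Finset (Fin m)) (α : Fin m →₀ ℕ) : EA R m := mon π α • uF R F

/-- squarefree exponent -/
noncomputable def ind (S : Finset (Fin m)) : Fin m →₀ ℕ := ∑ i ∈ S, Finsupp.single i 1

theorem ind_apply (S : Finset (Fin m)) (i : Fin m) : ind S i = if i ∈ S then 1 else 0 := by
  simp [ind, Finsupp.finsetSum_apply, Finsupp.single_apply]

theorem ind_support (S : Finset (Fin m)) : (ind S).support = S := by
  ext i; simp [ind_apply]

theorem prod_X_eq (k : Type u) [Field k] (S : Finset (Fin m)) :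
    (∏ i ∈ S, X i : MvPolynomial (Fin m) k) = monomial (ind S) 1 := by
  unfold ind
  rw [monomial_sum_one]
  rfl

theorem mon_add (α β : Fin m →₀ ℕ) : mon π (α + β) = mon π α * mon π β := by
  unfold mon
  rw [← map_mul, monomial_mul, one_mul]

theorem mon_single (i : Fin m) : mon π (Finsupp.single i 1) = gv π i := rfl

theorem mon_zero : mon π 0 = 1 := by simp [mon]

/-- `R` is the quotient of the polynomial ring by the monomials not supported on `K` -/
structure IsSR : Prop where
  surj : Function.Surjective π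
  zero : ∀ α : Fin m →₀ ℕ, α.support ∉ K → mon π α = 0
  lin : ∀ (W : Type u) [AddCommGroup W] [Module k W] (w : (Fin m →₀ ℕ) → W),
    (∀ α, α.support ∉ K → w α = 0) → ∃ g : R →ₗ[k] W, ∀ α, g (mon π α) = w α

variable {π K}

theorem cell_eq_zero (hR : IsSR π K) (F : Finset (Fin m)) (α : Fin m →₀ ℕ) (h : α.support ∉ K) :
    cell π F α = 0 := by
  unfold cell
  rw [hR.zero α h, zero_smul]

theorem exists_lin (hR : IsSR π K) {W : Type u} [AddCommGroup W] [Module k W]
    (w : Finset (Fin m) → (Fin m →₀ ℕ) → W) (hw : ∀ F α, α.support ∉ K → w F α = 0) :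
    ∃ g : EA R m →ₗ[k] W, ∀ F α, g (cell π F α) = w F α := by
  choose g hg using fun F => hR.lin W (w F) (hw F)
  let bE := (Pi.basisFun R (Fin m)).ExteriorAlgebra
  refine ⟨∑ F, (g F).comp ((bE.coord F).restrictScalars k), fun F α => ?_⟩
  have h1 : cell π F α = mon π α • bE F := by
    unfold cell uF
    rw [← basis_eq]
  rw [LinearMap.sum_apply, Finset.sum_eq_single F]
  · rw [LinearMap.comp_apply, LinearMap.restrictScalars_apply, h1, map_smul,
      Module.Basis.coord_apply, Module.Basis.repr_self_apply, if_pos rfl, smul_eq_mul, mul_one, hg]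
  · intro G _ hG
    rw [LinearMap.comp_apply, LinearMap.restrictScalars_apply, h1, map_smul,
      Module.Basis.coord_apply, Module.Basis.repr_self_apply, if_neg (Ne.symm hG), smul_zero,
      map_zero]
  · simp

theorem mk_smul_eq (p : MvPolynomial (Fin m) k) (x : EA R m) :
    π p • x = ∑ α ∈ p.support, coeff α p • (mon π α • x) := by
  conv_lhs => rw [p.as_sum, map_sum, Finset.sum_smul]
  refine Finset.sum_congr rfl fun α _ => ?_
  have h1 : monomial α (coeff α p) = coeff α p • monomial α (1 : k) := by
    rw [smul_monomial, smul_eq_mul, mul_one]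
  rw [h1, map_smul, smul_assoc]
  rfl

theorem span_cells (hR : IsSR π K) (S : Submodule k (EA R m)) (h : ∀ F α, cell π F α ∈ S) (x : EA R m) :
    x ∈ S := by
  let bE := (Pi.basisFun R (Fin m)).ExteriorAlgebra
  rw [← bE.sum_repr x]
  refine S.sum_mem fun F _ => ?_
  obtain ⟨p, hp⟩ := hR.surj (bE.repr x F)
  rw [← hp, mk_smul_eq]
  refine S.sum_mem fun α _ => S.smul_mem _ ?_
  have h1 : cell π F α = mon π α • bE F := by
    unfold cell uF
    rw [← basis_eq]
  rw [← h1]
  exact h F α

theorem lin_ext (hR : IsSR π K) {W : Type*} [AddCommGroup W] [Module k W] (g g' : EA R m →ₗ[k] W)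
    (h : ∀ F α, g (cell π F α) = g' (cell π F α)) : g = g' := by
  ext x
  exact span_cells hR (LinearMap.eqLocus g g') h x

theorem d_uF (F : Finset (Fin m)) :
    gD π (uF R F) = ((dl (lst F)).map fun t => t.1 • gv π t.2.1 • uF R (F.erase t.2.1)).sum := by
  have h := gd_gul (gv π) (lst F)
  change gD π (uF R F) = _ at h
  rw [h]
  congr 1
  refine List.map_congr_left fun t ht => ?_
  rw [(mem_dl _ (lst_nodup F) t ht).2, lst_erase]
  rfl

theorem d_cell (F : Finset (Fin m)) (α : Fin m →₀ ℕ) :
    gD π (cell π F α) = ((dl (lst F)).map fun t =>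
      t.1 • cell π (F.erase t.2.1) (α + Finsupp.single t.2.1 1)).sum := by
  unfold cell
  rw [map_smul, d_uF, List.smul_sum, List.map_map]
  congr 1
  refine List.map_congr_left fun t _ => ?_
  simp only [Function.comp]
  rw [smul_comm, mon_add, mon_single, mul_smul]

/-- multidegree -/
def mdeg (F : Finset (Fin m)) (α : Fin m →₀ ℕ) : Fin m → ℕ :=
  fun i => α i + if i ∈ F then 1 else 0

theorem mdeg_erase (F : Finset (Fin m)) (α : Fin m →₀ ℕ) (a : Fin m) (ha : a ∈ F) :
    mdeg (F.erase a) (α + Finsupp.single a 1) = mdeg F α := by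
  funext i
  unfold mdeg
  by_cases h : i = a
  · subst h; simp [ha]
  · simp [h]

variable (π) in
/-- the homotopy in a non-squarefree multidegree -/
noncomputable def hN (a : Fin m) (F : Finset (Fin m)) (α : Fin m →₀ ℕ) : EA R m :=
  mon π (α - Finsupp.single a 1) • (gu R a * uF R F)

theorem hN_eq_zero (hR : IsSR π K) (a : Fin m) (F : Finset (Fin m)) (α : Fin m →₀ ℕ) (ha : 2 ≤ mdeg F α a)
    (h : α.support ∉ K) : hN π a F α = 0 := by
  unfold hN
  by_cases haF : a ∈ F
  · unfold uF
    rw [gu_mul_gul_of_mem a _ ((mem_lst F a).2 haF), smul_zero]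
  · have h2 : 2 ≤ α a := by simpa [mdeg, haF] using ha
    have : (α - Finsupp.single a 1).support = α.support := by
      ext i
      simp only [Finsupp.mem_support_iff, Finsupp.tsub_apply, Finsupp.single_apply]
      split_ifs with hi
      · subst hi; omega
      · simp
    rw [hR.zero _ (this ▸ h), zero_smul]

theorem hN_identity (H : EA R m →ₗ[k] EA R m) (a : Fin m) (F : Finset (Fin m))
    (α : Fin m →₀ ℕ) (ha : 2 ≤ mdeg F α a)
    (hH : ∀ G γ, mdeg G γ = mdeg F α → H (cell π G γ) = hN π a G γ) :
    cell π F α = gD π (H (cell π F α)) + H (gD π (cell π F α)) := by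
  have h1 : 1 ≤ α a := by
    unfold mdeg at ha
    split_ifs at ha <;> omega
  have e1 : α = (α - Finsupp.single a 1) + Finsupp.single a 1 := by
    ext i
    simp only [Finsupp.add_apply, Finsupp.tsub_apply, Finsupp.single_apply]
    split_ifs with hi
    · subst hi; omega
    · simp
  have e2 : ∀ i, α + Finsupp.single i 1 - Finsupp.single a 1
      = (α - Finsupp.single a 1) + Finsupp.single i 1 := fun i => by
    ext j
    simp only [Finsupp.add_apply, Finsupp.tsub_apply, Finsupp.single_apply]
    split_ifs with h2 h3 h3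
    · subst h3; omega
    · omega
    · subst h3; omega
    · omega
  have h2 : gD π (H (cell π F α)) = cell π F α
      - mon π (α - Finsupp.single a 1) • (gu R a * gD π (uF R F)) := by
    rw [hH F α rfl]
    unfold hN
    have h3 := gd_gu_mul (gv π) a (uF R F)
    change gD π _ = _ - _ * gD π _ at h3
    rw [map_smul, h3, smul_sub, smul_smul, ← mon_single, ← mon_add, ← e1]
    rfl
  have h3 : H (gD π (cell π F α))
      = mon π (α - Finsupp.single a 1) • (gu R a * gD π (uF R F)) := by
    rw [d_cell, d_uF, map_list_sum, List.map_map, ← List.sum_map_mul_left, List.smul_sum,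
      List.map_map]
    congr 1
    refine List.map_congr_left fun t ht => ?_
    have ht' : t.2.1 ∈ F := (mem_lst F _).1 (mem_dl _ (lst_nodup F) t ht).1
    simp only [Function.comp]
    rw [map_zsmul, hH _ _ (mdeg_erase F α _ ht')]
    unfold hN
    rw [e2, mon_add, mon_single, mul_smul_comm, smul_comm (mon π _) t.1, mul_smul]
    congr 2
    exact (Algebra.mul_smul_comm _ _ _).symm
  rw [h2, h3, sub_add_cancel]

theorem cell_mem_bideg (F : Finset (Fin m)) (S : Finset (Fin m)) :
    cell π F (ind S) ∈ gbideg π F.card (F.card + S.card) := by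
  refine Submodule.subset_span ⟨S.card, monomial (ind S) 1, lst F, rfl, ?_, lst_length F, rfl⟩
  refine isHomogeneous_monomial _ ?_
  unfold ind
  rw [map_sum]
  simp

theorem bideg_le (i j : ℕ) (T : Submodule k (EA R m))
    (h : ∀ F α, F.card = i → i + α.degree = j → cell π F α ∈ T) : gbideg π i j ≤ T := by
  unfold gbideg
  rw [Submodule.span_le]
  rintro _ ⟨q, p, l, hq, hp, hl, rfl⟩
  change _ • gul R l ∈ T
  by_cases hn : l.Nodup
  · obtain ⟨c, hc⟩ := gul_eq (R := R) l hn
    rw [hc, smul_comm, mk_smul_eq]
    refine T.toAddSubgroup.zsmul_mem (T.sum_mem fun α hα => T.smul_mem _ ?_) c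
    refine h l.toFinset α (by rw [List.toFinset_card_of_nodup hn, hl]) ?_
    have := hp (mem_support_iff.1 hα)
    rw [← hq, ← this, Finsupp.degree_eq_weight_one]
    rfl
  · rw [gul_eq_zero l hn, smul_zero]
    exact T.zero_mem

theorem cell_mul (F G : Finset (Fin m)) (α β : Fin m →₀ ℕ) :
    cell π F α * cell π G β = mon π (α + β) • gul R (lst F ++ lst G) := by
  unfold cell uF
  rw [gul_append, mon_add, Algebra.smul_mul_assoc, Algebra.mul_smul_comm, mul_smul]

end Pool.Agent.H448Z.Buch
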