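import Pool.Agent.H448Z.Buch.Cells

/-!
A finite certificate for the cohomology of the Koszul algebra of a complex on eight vertices.
-/

set_option autoImplicit false

namespace Pool.Agent.H448Z.Buch

open MvPolynomial

universe u

/-- the list of the set bits -/
def bits (n : ℕ) : List (Fin 8) := [0, 1, 2, 3, 4, 5, 6, 7].filter fun i : Fin 8 => n.testBit i

/-- the set of the set bits -/
def toF (n : ℕ) : Finset (Fin 8) := Finset.univ.filter fun i : Fin 8 => n.testBit i

/-- the bit mask of a set -/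
def msk (F : Finset (Fin 8)) : ℕ := ∑ i ∈ F, 2 ^ (i : ℕ)

@[simp] theorem mem_toF (n : ℕ) (i : Fin 8) : i ∈ toF n ↔ n.testBit i = true := by simp [toF]

theorem lst_toF (n : ℕ) : lst (toF n) = bits n := by
  unfold lst bits
  have : List.finRange 8 = [0, 1, 2, 3, 4, 5, 6, 7] := by decide
  rw [this]
  refine List.filter_congr fun i _ => ?_
  simp

theorem card_toF (n : ℕ) : (toF n).card = (bits n).length := by rw [← lst_toF, lst_length]

theorem msk_toF : ∀ n < 256, msk (toF n) = n := by decide +kernel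

theorem toF_msk : ∀ F : Finset (Fin 8), toF (msk F) = F ∧ msk F < 256 := by decide +kernel

theorem toF_inj {a b : ℕ} (ha : a < 256) (hb : b < 256) (h : toF a = toF b) : a = b := by
  rw [← msk_toF a ha, h, msk_toF b hb]

/-- certificate data -/
structure Data where
  face : ℕ → Bool
  hT : ℕ → ℕ → List (ℤ × ℕ)
  pT : ℕ → ℕ → List (ℤ × Fin 64)
  Jb : Fin 64 → ℕ
  iT : Fin 64 → List (ℤ × ℕ)

/-- submask -/
def sub (s J : ℕ) : Bool := s &&& J == s

theorem sub_iff {s J : ℕ} (h : sub s J = true) (i : ℕ) (hi : s.testBit i = true) :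
    J.testBit i = true := by
  have h1 : s &&& J = s := by simpa [sub] using h
  rw [← h1, Nat.testBit_and] at hi
  simp only [Bool.and_eq_true] at hi
  exact hi.2

theorem sub_lt {s J : ℕ} (h : sub s J = true) (hJ : J < 256) : s < 256 := by
  have h1 : s &&& J = s := by simpa [sub] using h
  rw [← h1]
  exact lt_of_le_of_lt Nat.and_le_right hJ

namespace Data

variable (D : Data) (dI dJ : Fin 64 → ℕ) (mu : Fin 64 → Fin 64 → List (ℤ × Fin 64))

/-- differential -/
def dd (J s : ℕ) : List (ℤ × ℕ) :=
  ((dl (bits (J ^^^ s))).filter fun t => D.face (s ||| 2 ^ (t.2.1 : ℕ))).map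
    fun t => (t.1, s ||| 2 ^ (t.2.1 : ℕ))

/-- homotopy -/
def hF (J s : ℕ) : List (ℤ × ℕ) := if D.face s then D.hT J s else []

/-- projection -/
def pF (J s : ℕ) : List (ℤ × Fin 64) := if D.face s then D.pT J s else []

/-- check of the homotopy identity on one cell -/
def chkCell (J s : ℕ) : Bool :=
  (D.hT J s).all (fun t => sub t.2 J) &&
  (D.pT J s).all (fun t => D.Jb t.2 == J && dI t.2 == (bits (J ^^^ s)).length) &&
  isZ ((-1, s) :: (app D.iT (D.pT J s) ++ app (D.dd J) (D.hT J s) ++ app (D.hF J) (D.dd J s)))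

/-- check of one multidegree -/
def chkJ (J : ℕ) : Bool :=
  (List.range 256).all fun s => !(sub s J && D.face s) || D.chkCell dI J s

/-- check of one basic cocycle -/
def chkB (b : Fin 64) : Bool :=
  decide (D.Jb b < 256) && dJ b == (bits (D.Jb b)).length &&
  (D.iT b).all (fun t => sub t.2 (D.Jb b) && dI b == (bits (D.Jb b ^^^ t.2)).length) &&
  isZ (app (D.dd (D.Jb b)) (D.iT b)) && isZ ((-1, b) :: app (D.pF (D.Jb b)) (D.iT b))

/-- projection of the product of two cells -/
def mulP (J₁ s₁ J₂ s₂ : ℕ) : List (ℤ × Fin 64) :=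
  scl (mull (bits (J₁ ^^^ s₁)) (bits (J₂ ^^^ s₂))).1 (D.pF (J₁ ||| J₂) (s₁ ||| s₂))

/-- check of one product -/
def chkM (a b : Fin 64) : Bool :=
  if D.Jb a &&& D.Jb b = 0 then
    (D.iT a).all (fun t => (D.iT b).all fun r =>
      (mull (bits (D.Jb a ^^^ t.2)) (bits (D.Jb b ^^^ r.2))).2
        == bits ((D.Jb a ||| D.Jb b) ^^^ (t.2 ||| r.2))) &&
    isZ (app (fun s₁ => app (fun s₂ => D.mulP (D.Jb a) s₁ (D.Jb b) s₂) (D.iT b)) (D.iT a)
      ++ scl (-1) (mu a b))
  else isZ (mu a b)

end Data

variable {k : Type u} [Field k] {R : Type u} [CommRing R] [Algebra k R]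
  (π : MvPolynomial (Fin 8) k →ₐ[k] R) {K : Set (Finset (Fin 8))}

/-- squarefree cells -/
noncomputable def C (J s : ℕ) : EA R 8 := cell π (toF (J ^^^ s)) (ind (toF s))

/-- coordinate vectors -/
def eB (k : Type u) [Field k] (b : Fin 64) : Fin 64 → k := Pi.single b 1

/-- model in generic terms -/
structure GModel (dI dJ : Fin 64 → ℕ) (μ : Fin 64 → Fin 64 → Fin 64 → k) (e : Fin 64 → k) where
  ι : Fin 64 → EA R 8
  p : EA R 8 →ₗ[k] (Fin 64 → k)
  h : EA R 8 →ₗ[k] EA R 8
  dι : ∀ b, gD π (ι b) = 0
  pι : ∀ b, p (ι b) = Pi.single b 1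
  hom : ∀ x, x = ∑ b, p x b • ι b + gD π (h x) + h (gD π x)
  degι : ∀ b, ι b ∈ gbideg π (dI b) (dJ b)
  degp : ∀ i j, ∀ x ∈ gbideg π i j, ∀ b, (dI b ≠ i ∨ dJ b ≠ j) → p x b = 0
  mul : ∀ a b, p (ι a * ι b) = μ a b
  one : p 1 = e

variable {π}

theorem ind_insert (S : Finset (Fin 8)) (i : Fin 8) (h : i ∉ S) :
    ind S + Finsupp.single i 1 = ind (insert i S) := by
  unfold ind
  rw [Finset.sum_insert h, add_comm]

theorem d_C (hR : IsSR π K) (D : Data) (hface : ∀ s < 256, D.face s = true ↔ toF s ∈ K)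
    {J s : ℕ} (hJ : J < 256) (hs : sub s J = true) :
    gD π (C π J s) = ev (C π J) (D.dd J s) := by
  have hs' := sub_lt hs hJ
  have key : ∀ t ∈ dl (bits (J ^^^ s)),
      cell π ((toF (J ^^^ s)).erase t.2.1) (ind (toF s) + Finsupp.single t.2.1 1)
        = C π J (s ||| 2 ^ (t.2.1 : ℕ)) := by
    intro t ht
    rw [← lst_toF] at ht
    have h1 : t.2.1 ∈ toF (J ^^^ s) := (mem_lst _ _).1 (mem_dl _ (lst_nodup _) t ht).1
    generalize t.2.1 = i at h1
    rw [mem_toF, Nat.testBit_xor] at h1
    have h2 : s.testBit i = false := by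
      cases h : s.testBit i
      · rfl
      · rw [h, sub_iff hs i h] at h1; simp at h1
    have h3 : J.testBit i = true := by simpa [h2] using h1
    unfold C
    congr 1
    · ext j
      by_cases hj : j = i
      · subst hj; simp [Nat.testBit_xor, Nat.testBit_or, h3]
      · have : (i : ℕ) ≠ j := fun h => hj (Fin.ext h.symm)
        simp [Nat.testBit_xor, Nat.testBit_or, hj, Nat.testBit_two_pow_of_ne this]
    · rw [ind_insert _ _ (by simp [h2])]
      congr 1
      ext j
      by_cases hj : j = i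
      · subst hj; simp [Nat.testBit_or]
      · have : (i : ℕ) ≠ j := fun h => hj (Fin.ext h.symm)
        simp [Nat.testBit_or, hj, Nat.testBit_two_pow_of_ne this]
  have e1 : gD π (C π J s)
      = ((dl (bits (J ^^^ s))).map fun t => t.1 • C π J (s ||| 2 ^ (t.2.1 : ℕ))).sum := by
    conv_lhs => unfold C
    rw [d_cell, lst_toF]
    congr 1
    exact List.map_congr_left fun t ht => by rw [key t ht]
  rw [e1]
  unfold Data.dd
  generalize dl (bits (J ^^^ s)) = l
  induction l with
  | nil => rfl
  | cons t l ih =>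
    cases h : D.face (s ||| 2 ^ (t.2.1 : ℕ))
    · have hlt : s ||| 2 ^ (t.2.1 : ℕ) < 2 ^ 8 :=
        Nat.or_lt_two_pow hs' (Nat.pow_lt_pow_right (by norm_num) t.2.1.2)
      have h0 : C π J (s ||| 2 ^ (t.2.1 : ℕ)) = 0 := by
        refine cell_eq_zero hR _ _ ?_
        rw [ind_support, ← hface _ hlt, h]
        simp
      simp [-zsmul_eq_mul, h, h0, ih]
    · simp [-zsmul_eq_mul, h, ih]

/-- non-squarefree multidegree -/
def Nsq (F : Finset (Fin 8)) (α : Fin 8 →₀ ℕ) : Prop := ∃ a, 2 ≤ mdeg F α a

theorem C_sq {J s : ℕ} (hJ : J < 256) (hs : sub s J = true) :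
    ¬ Nsq (toF (J ^^^ s)) (ind (toF s)) ∧ msk (ind (toF s)).support = s ∧
      msk (toF (J ^^^ s) ∪ (ind (toF s)).support) = J := by
  refine ⟨?_, ?_, ?_⟩
  · rintro ⟨a, ha⟩
    simp only [mdeg, ind_apply, mem_toF, Nat.testBit_xor] at ha
    cases h : s.testBit a
    · simp only [h] at ha
      split_ifs at ha <;> simp_all
    · simp [h, sub_iff hs a h] at ha
  · rw [ind_support, msk_toF s (sub_lt hs hJ)]
  · rw [ind_support]
    have : toF (J ^^^ s) ∪ toF s = toF J := by
      ext j
      cases h : s.testBit j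
      · simp [Nat.testBit_xor, h]
      · simp [h, sub_iff hs j h]
    rw [this, msk_toF J hJ]

theorem sq_cell {F : Finset (Fin 8)} {α : Fin 8 →₀ ℕ} (h : ¬ Nsq F α) :
    ∃ J s, J < 256 ∧ sub s J = true ∧ F = toF (J ^^^ s) ∧ α = ind (toF s) := by
  have h' : ∀ a, α a + (if a ∈ F then 1 else 0) < 2 := fun a => not_le.1 fun ha => h ⟨a, ha⟩
  refine ⟨msk (F ∪ α.support), msk α.support, (toF_msk _).2, ?_, ?_, ?_⟩
  · unfold sub
    rw [beq_iff_eq]
    refine toF_inj (lt_of_le_of_lt Nat.and_le_right (toF_msk _).2) (toF_msk _).2 ?_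
    ext j
    rw [mem_toF, Nat.testBit_and, Bool.and_eq_true, ← mem_toF, ← mem_toF, (toF_msk _).1,
      (toF_msk _).1]
    simp only [Finset.mem_union]
    tauto
  · ext j
    have h1 : (msk (F ∪ α.support)).testBit j = true ↔ j ∈ F ∪ α.support := by
      rw [← mem_toF, (toF_msk _).1]
    have h2 : (msk α.support).testBit j = true ↔ j ∈ α.support := by
      rw [← mem_toF, (toF_msk _).1]
    have h3 := h' j
    rw [mem_toF, Nat.testBit_xor]
    simp only [Finset.mem_union, Finsupp.mem_support_iff] at h1 h2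
    by_cases hF : j ∈ F
    · have : α j = 0 := by simp only [hF, if_true] at h3; omega
      cases e1 : (msk (F ∪ α.support)).testBit j <;> cases e2 : (msk α.support).testBit j <;>
        simp_all
    · cases e1 : (msk (F ∪ α.support)).testBit j <;> cases e2 : (msk α.support).testBit j <;>
        simp_all
  · rw [(toF_msk _).1]
    ext j
    have h3 := h' j
    rw [ind_apply]
    simp only [Finsupp.mem_support_iff]
    split_ifs at h3 ⊢ <;> omega

theorem ev_eB_apply (l : List (ℤ × Fin 64)) (b : Fin 64) (h : ∀ t ∈ l, t.2 ≠ b) :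
    ev (eB k) l b = 0 := by
  induction l with
  | nil => rfl
  | cons t l ih =>
    rw [ev_cons, Pi.add_apply, ih fun s hs => h s (by simp [hs])]
    have := h t (by simp)
    simp [eB, Ne.symm this]

theorem sum_ev_eB {M : Type u} [AddCommGroup M] [Module k M] (g : Fin 64 → M)
    (l : List (ℤ × Fin 64)) : ∑ b, ev (eB k) l b • g b = ev g l := by
  induction l with
  | nil => simp
  | cons t l ih =>
    rw [ev_cons, ev_cons, ← ih]
    simp only [Pi.add_apply, add_smul, Finset.sum_add_distrib]
    congr 1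
    rw [Finset.sum_eq_single t.2]
    · simp [eB, Int.cast_smul_eq_zsmul]
    · intro b _ hb
      simp [eB, hb]
    · simp

theorem ev_congr {κ M : Type*} [AddCommGroup M] (g g' : κ → M) (l : List (ℤ × κ))
    (h : ∀ t ∈ l, g t.2 = g' t.2) :
    (l.map fun t => t.1 • g t.2).sum = (l.map fun t => t.1 • g' t.2).sum := by
  congr 1
  exact List.map_congr_left fun t ht => by rw [h t ht]

theorem ev_mem {κ : Type} {M : Type u} [AddCommGroup M] [Module k M] (g : κ → M)
    (l : List (ℤ × κ)) (S : Submodule k M) (h : ∀ t ∈ l, g t.2 ∈ S) : ev g l ∈ S := by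
  induction l with
  | nil => exact S.zero_mem
  | cons t l ih =>
    rw [ev_cons]
    exact S.add_mem (S.toAddSubgroup.zsmul_mem (h t (by simp)) _) (ih fun s hs => h s (by simp [hs]))

theorem card_sub {J s : ℕ} (hs : sub s J = true) :
    (toF (J ^^^ s)).card + (toF s).card = (toF J).card := by
  rw [← Finset.card_union_of_disjoint]
  · congr 1
    ext j
    cases h : s.testBit j
    · simp [Nat.testBit_xor, h]
    · simp [h, sub_iff hs j h]
  · rw [Finset.disjoint_left]
    intro j h1 h2
    rw [mem_toF] at h1 h2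
    simp [Nat.testBit_xor, h2, sub_iff hs j h2] at h1

theorem degree_ind (S : Finset (Fin 8)) : (ind S).degree = S.card := by
  unfold ind
  rw [map_sum]
  simp

theorem nsq_mul {J₁ s₁ J₂ s₂ : ℕ} (hJ₁ : J₁ < 256) 
    (hJ : J₁ &&& J₂ ≠ 0)
    (hn : (lst (toF (J₁ ^^^ s₁)) ++ lst (toF (J₂ ^^^ s₂))).Nodup) :
    Nsq (lst (toF (J₁ ^^^ s₁)) ++ lst (toF (J₂ ^^^ s₂))).toFinset
      (ind (toF s₁) + ind (toF s₂)) := by
  have h1 : toF (J₁ &&& J₂) ≠ toF 0 := fun h =>
    hJ (toF_inj (lt_of_le_of_lt Nat.and_le_left hJ₁) (by norm_num) h)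
  have h2 : toF 0 = ∅ := by ext; simp
  rw [h2] at h1
  obtain ⟨a, ha⟩ := Finset.nonempty_iff_ne_empty.2 h1
  rw [mem_toF, Nat.testBit_and, Bool.and_eq_true] at ha
  refine ⟨a, ?_⟩
  rw [List.nodup_append] at hn
  have h3 := hn.2.2 a
  simp only [mdeg, Finsupp.add_apply, ind_apply, List.mem_toFinset, List.mem_append, mem_lst,
    mem_toF, Nat.testBit_xor, ha.1, ha.2] at h3 ⊢
  cases e1 : s₁.testBit a <;> cases e2 : s₂.testBit a
  · exfalso
    refine h3 (by simp [e1]) a ?_ rfl
    simp [ha.2, e2]
  · simp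
  · simp
  · simp

theorem sound (hR : IsSR π K) (D : Data) (hface : ∀ s < 256, D.face s = true ↔ toF s ∈ K)
    (dI dJ : Fin 64 → ℕ) (mu : Fin 64 → Fin 64 → List (ℤ × Fin 64))
    (hJ : ∀ J < 256, D.chkJ dI J = true) (hB : ∀ b, D.chkB dI dJ b = true)
    (hM : ∀ a b, D.chkM mu a b = true) (h1 : isZ ((-1, 0) :: D.pF 0 0) = true) :
    Nonempty (GModel π dI dJ (fun a b => ev (eB k) (mu a b)) (eB k 0)) := by
  classical
  let pick : (Fin 8 → ℕ) → Fin 8 := fun β => Classical.epsilon fun a => 2 ≤ β a
  have hpick : ∀ F α, Nsq F α → 2 ≤ mdeg F α (pick (mdeg F α)) := fun F α h =>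
    Classical.epsilon_spec h
  have hnf : ∀ α : Fin 8 →₀ ℕ, α.support ∉ K → D.face (msk α.support) = false := by
    intro α h
    have := hface _ (toF_msk α.support).2
    rw [(toF_msk _).1] at this
    simpa [h] using this
  obtain ⟨H, hH⟩ := exists_lin hR (fun F α => if Nsq F α then hN π (pick (mdeg F α)) F α
      else ev (C π (msk (F ∪ α.support))) (D.hF (msk (F ∪ α.support)) (msk α.support))) (by
    intro F α h
    split_ifs with hn
    · exact hN_eq_zero hR _ F α (hpick F α hn) h
    · simp [Data.hF, hnf α h])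
  obtain ⟨P, hP⟩ := exists_lin hR (W := Fin 64 → k) (fun F α => if Nsq F α then 0
      else ev (eB k) (D.pF (msk (F ∪ α.support)) (msk α.support))) (by
    intro F α h
    split_ifs with hn
    · rfl
    · simp [Data.pF, hnf α h])
  have HC : ∀ J s, J < 256 → sub s J = true → H (C π J s) = ev (C π J) (D.hF J s) := by
    intro J s h1 h2
    obtain ⟨e1, e2, e3⟩ := C_sq h1 h2
    conv_lhs => unfold C
    rw [hH, if_neg e1, e2, e3]
  have PC : ∀ J s, J < 256 → sub s J = true → P (C π J s) = ev (eB k) (D.pF J s) := by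
    intro J s h1 h2
    obtain ⟨e1, e2, e3⟩ := C_sq h1 h2
    conv_lhs => unfold C
    rw [hP, if_neg e1, e2, e3]
  have PN : ∀ F α, Nsq F α → P (cell π F α) = 0 := fun F α h => by rw [hP, if_pos h]
  have hB' : ∀ b, D.Jb b < 256 ∧ dJ b = (bits (D.Jb b)).length ∧
      (∀ t ∈ D.iT b, sub t.2 (D.Jb b) = true ∧ dI b = (bits (D.Jb b ^^^ t.2)).length) ∧
      isZ (app (D.dd (D.Jb b)) (D.iT b)) = true ∧
      isZ ((-1, b) :: app (D.pF (D.Jb b)) (D.iT b)) = true := by
    intro b
    have := hB b
    simp only [Data.chkB, Bool.and_eq_true, decide_eq_true_eq, beq_iff_eq, List.all_eq_true]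
      at this
    tauto
  have hC' : ∀ J s, J < 256 → sub s J = true → D.face s = true →
      (∀ t ∈ D.hT J s, sub t.2 J = true) ∧
      (∀ t ∈ D.pT J s, D.Jb t.2 = J ∧ dI t.2 = (bits (J ^^^ s)).length) ∧
      isZ ((-1, s) :: (app D.iT (D.pT J s) ++ app (D.dd J) (D.hT J s)
        ++ app (D.hF J) (D.dd J s))) = true := by
    intro J s h1 h2 h3
    have h4 := hJ J h1
    simp only [Data.chkJ, List.all_eq_true, List.mem_range] at h4
    have h5 := h4 s (sub_lt h2 h1)
    simp only [h2, h3, Bool.and_self, Bool.not_true, Bool.false_or, Data.chkCell, Bool.and_eq_true,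
      List.all_eq_true, beq_iff_eq] at h5
    tauto
  have sub_dd : ∀ J s, sub s J = true → ∀ t ∈ D.dd J s, sub t.2 J = true := by
    intro J s h2 t ht
    simp only [Data.dd, List.mem_map, List.mem_filter] at ht
    obtain ⟨r, ⟨hr, _⟩, rfl⟩ := ht
    rw [← lst_toF] at hr
    have h3 : r.2.1 ∈ toF (J ^^^ s) := (mem_lst _ _).1 (mem_dl _ (lst_nodup _) r hr).1
    rw [mem_toF, Nat.testBit_xor] at h3
    have h4 : J.testBit r.2.1 = true := by
      cases h : s.testBit r.2.1
      · simpa [h] using h3
      · exact sub_iff h2 _ h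
    unfold sub
    rw [beq_iff_eq]
    refine Nat.eq_of_testBit_eq fun j => ?_
    simp only [Nat.testBit_and, Nat.testBit_or]
    cases h : s.testBit j
    · by_cases hj : (r.2.1 : ℕ) = j
      · subst hj; simp [h4]
      · simp [Nat.testBit_two_pow_of_ne hj]
    · simp [sub_iff h2 j h]
  let ι : Fin 64 → EA R 8 := fun b => ev (C π (D.Jb b)) (D.iT b)
  have hom : ∀ F α, cell π F α = ∑ b, P (cell π F α) b • ι b + gD π (H (cell π F α))
      + H (gD π (cell π F α)) := by
    intro F α
    by_cases hn : Nsq F α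
    · rw [PN F α hn]
      simp only [Pi.zero_apply, zero_smul, Finset.sum_const_zero, zero_add]
      refine hN_identity H (pick (mdeg F α)) F α (hpick F α hn) fun G γ h => ?_
      have : Nsq G γ := by unfold Nsq; rw [h]; exact hn
      rw [hH, if_pos this, h]
    · obtain ⟨J, s, h1, h2, rfl, rfl⟩ := sq_cell hn
      change C π J s = ∑ b, P (C π J s) b • ι b + gD π (H (C π J s)) + H (gD π (C π J s))
      cases hf : D.face s
      · have h0 : C π J s = 0 := by
          refine cell_eq_zero hR _ _ ?_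
          rw [ind_support, ← hface _ (sub_lt h2 h1), hf]
          simp
        simp [h0]
      · obtain ⟨c1, c2, c3⟩ := hC' J s h1 h2 hf
        have e1 : ∑ b, P (C π J s) b • ι b = ev (C π J) (app D.iT (D.pT J s)) := by
          rw [PC J s h1 h2, sum_ev_eB]
          simp only [Data.pF, hf, if_true]
          exact ev_app ι (C π J) (AddMonoidHom.id _) D.iT _ fun t ht => by
            rw [← (c2 t ht).1]; rfl
        have e2 : gD π (H (C π J s)) = ev (C π J) (app (D.dd J) (D.hT J s)) := by
          rw [HC J s h1 h2]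
          simp only [Data.hF, hf, if_true]
          exact ev_app (C π J) (C π J) (gD π).toAddMonoidHom _ _ fun t ht =>
            d_C hR D hface h1 (c1 t ht)
        have e3 : H (gD π (C π J s)) = ev (C π J) (app (D.hF J) (D.dd J s)) := by
          rw [d_C hR D hface h1 h2]
          exact ev_app (C π J) (C π J) H.toAddMonoidHom _ _ fun t ht =>
            HC J t.2 h1 (sub_dd J s h2 t ht)
        have e4 := ev_isZ (C π J) _ c3
        rw [ev_cons, ev_append, ev_append, ← e1, ← e2, ← e3] at e4
        simp only [neg_smul, one_smul] at e4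
        exact (neg_add_eq_zero.1 e4)
  refine ⟨⟨ι, P, H, fun b => ?_, fun b => ?_, fun x => ?_, fun b => ?_, fun i j x hx b hb => ?_,
    fun a b => ?_, ?_⟩⟩
  · obtain ⟨c1, _, c3, c4, _⟩ := hB' b
    have := ev_app (C π (D.Jb b)) (C π (D.Jb b)) (gD π).toAddMonoidHom (D.dd (D.Jb b)) (D.iT b)
      fun t ht => d_C hR D hface c1 (c3 t ht).1
    rw [ev_isZ _ _ c4] at this
    exact this
  · obtain ⟨c1, _, c3, _, c5⟩ := hB' b
    have := ev_app (C π (D.Jb b)) (eB k) P.toAddMonoidHom (D.pF (D.Jb b)) (D.iT b)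
      fun t ht => PC _ _ c1 (c3 t ht).1
    have e := ev_isZ (eB k) _ c5
    rw [ev_cons, ← this] at e
    simp only [neg_smul, one_smul] at e
    exact (neg_add_eq_zero.1 e).symm
  · let S : Submodule k (EA R 8) :=
      { carrier := {x | x = ∑ b, P x b • ι b + gD π (H x) + H (gD π x)}
        add_mem' := by
          intro x y hx hy
          simp only [Set.mem_ofPred_eq] at hx hy ⊢
          conv_lhs => rw [hx, hy]
          simp only [map_add, Pi.add_apply, add_smul, Finset.sum_add_distrib]
          abel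
        zero_mem' := by simp
        smul_mem' := by
          intro c x hx
          simp only [Set.mem_ofPred_eq] at hx ⊢
          conv_lhs => rw [hx]
          simp only [map_smul, Pi.smul_apply, smul_eq_mul, mul_smul, smul_add, Finset.smul_sum,
            LinearMap.map_smul_of_tower] }
    exact span_cells hR S hom x
  · obtain ⟨c1, c2, c3, _, _⟩ := hB' b
    refine ev_mem _ _ _ fun t ht => ?_
    have := cell_mem_bideg (π := π) (toF (D.Jb b ^^^ t.2)) (toF t.2)
    rw [card_sub (c3 t ht).1, card_toF, card_toF, ← (c3 t ht).2, ← c2] at this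
    exact this
  · have hle : gbideg π i j ≤ LinearMap.ker ((LinearMap.proj b).comp P) := by
      refine bideg_le i j _ fun F α e1 e2 => ?_
      change P (cell π F α) b = 0
      by_cases hn : Nsq F α
      · rw [PN F α hn]; rfl
      · obtain ⟨J, s, h1, h2, rfl, rfl⟩ := sq_cell hn
        change P (C π J s) b = 0
        rw [PC J s h1 h2]
        refine ev_eB_apply _ _ fun t ht => ?_
        cases hf : D.face s
        · simp [Data.pF, hf] at ht
        · simp only [Data.pF, hf, if_true] at ht
          obtain ⟨_, c2, _⟩ := hC' J s h1 h2 hf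
          rintro rfl
          rw [degree_ind, ← e1, card_sub h2, card_toF] at e2
          rw [card_toF] at e1
          rcases hb with hb | hb
          · exact hb ((c2 t ht).2.trans e1)
          · exact hb (by rw [(hB' t.2).2.1, (c2 t ht).1, e2])
    exact hle hx
  · obtain ⟨a1, _, a3, _, _⟩ := hB' a
    obtain ⟨b1, _, b3, _, _⟩ := hB' b
    have hm := hM a b
    unfold Data.chkM at hm
    have bil : ∀ f : ℕ → ℕ → List (ℤ × Fin 64),
        (∀ t ∈ D.iT a, ∀ r ∈ D.iT b,
          P (C π (D.Jb a) t.2 * C π (D.Jb b) r.2) = ev (eB k) (f t.2 r.2)) →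
        P (ι a * ι b) = ev (eB k) (app (fun s₁ => app (f s₁) (D.iT b)) (D.iT a)) := by
      intro f hf
      refine ev_app (C π (D.Jb a)) (eB k)
        (P.toAddMonoidHom.comp (AddMonoidHom.mulRight (ι b))) _ _ fun t ht => ?_
      exact ev_app (C π (D.Jb b)) (eB k)
        (P.toAddMonoidHom.comp (AddMonoidHom.mulLeft (C π (D.Jb a) t.2))) _ _ fun r hr =>
          hf t ht r hr
    split_ifs at hm with h0
    · simp only [Bool.and_eq_true, List.all_eq_true, beq_iff_eq] at hm
      have e := ev_isZ (eB k) _ hm.2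
      rw [ev_append, ev_scl, ← bil] at e
      · simp only [neg_smul, one_smul] at e
        exact add_neg_eq_zero.1 e
      · intro t ht r hr
        have s1 := (a3 t ht).1
        have s2 := (b3 r hr).1
        have hsub : sub (t.2 ||| r.2) (D.Jb a ||| D.Jb b) = true := by
          unfold sub
          rw [beq_iff_eq]
          refine Nat.eq_of_testBit_eq fun j => ?_
          simp only [Nat.testBit_and, Nat.testBit_or]
          cases e1 : t.2.testBit j <;> cases e2 : r.2.testBit j
          · simp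
          · simp [sub_iff s2 j e2]
          · simp [sub_iff s1 j e1]
          · simp [sub_iff s2 j e2]
        have hlt : D.Jb a ||| D.Jb b < 2 ^ 8 := Nat.or_lt_two_pow a1 b1
        have hind : ind (toF t.2) + ind (toF r.2) = ind (toF (t.2 ||| r.2)) := by
          ext j
          have hj := congrArg (fun n => Nat.testBit n j) h0
          simp only [Nat.testBit_and, Nat.zero_testBit] at hj
          simp only [Finsupp.add_apply, ind_apply, mem_toF, Nat.testBit_or]
          cases e1 : t.2.testBit j <;> cases e2 : r.2.testBit j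
          · simp
          · simp
          · simp
          · simp [sub_iff s1 j e1, sub_iff s2 j e2] at hj
        conv_lhs => unfold C
        rw [cell_mul, gul_append, gul_mul_gul, lst_toF, lst_toF, hm.1 t ht r hr, hind, smul_comm,
          ← lst_toF ((D.Jb a ||| D.Jb b) ^^^ (t.2 ||| r.2))]
        change P ((_ : ℤ) • C π (D.Jb a ||| D.Jb b) (t.2 ||| r.2)) = _
        rw [map_zsmul, PC _ _ hlt hsub, Data.mulP, ev_scl]
    · rw [ev_isZ _ _ hm, bil fun _ _ => []]
      · have : ∀ l : List (ℤ × ℕ), ev (eB k) (app (fun _ : ℕ => ([] : List (ℤ × Fin 64))) l) = 0 := by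
          intro l
          induction l with
          | nil => rfl
          | cons t l ih => simp [app, scl, ih]
        generalize D.iT a = l
        induction l with
        | nil => rfl
        | cons t l ih => simp only [app, ev_append, ev_scl, this, ih, smul_zero, add_zero]
      · intro t ht r hr
        conv_lhs => unfold C
        rw [cell_mul]
        by_cases hn : (lst (toF (D.Jb a ^^^ t.2)) ++ lst (toF (D.Jb b ^^^ r.2))).Nodup
        · obtain ⟨c, hc⟩ := gul_eq (R := R) _ hn
          rw [hc, smul_comm, map_zsmul]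
          change c • P (cell π _ _) = _
          rw [PN _ _ (nsq_mul a1 h0 hn), smul_zero]
          rfl
        · rw [gul_eq_zero _ hn, smul_zero, map_zero]
          rfl
  · have e0 : C π 0 0 = 1 := by
      have h2 : toF 0 = ∅ := by ext; simp
      have h3 : lst (∅ : Finset (Fin 8)) = [] := by simp [lst]
      simp [C, cell, h2, ind, mon_zero, uF, h3]
    rw [← e0, PC 0 0 (by norm_num) (by decide)]
    have e := ev_isZ (eB k) _ h1
    rw [ev_cons] at e
    simp only [neg_smul, one_smul] at e
    exact (neg_add_eq_zero.1 e).symm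

end Pool.Agent.H448Z.Buch
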