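import Pool.Agent.H448Z.Buch.DataQ

set_option autoImplicit false

namespace Pool.Agent.H448Z.Buch

theorem chkJ_Q1 : ∀ j < 64, dataQ.chkJ dI (4 * j + 1) = true := by decide +kernel

end Pool.Agent.H448Z.Buch
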