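import Pool.Agent.H448Z.Buch.Check

set_option autoImplicit false

namespace Pool.Agent.H448Z.Buch

/-- decode a formal sum -/
def dec : ℕ → ℕ → List (ℤ × ℕ)
  | 0, _ => []
  | f + 1, n => if n = 0 then [] else
      ((Int.ofNat (n / 256 % 16) - 8, n % 256) :: dec f (n / 4096))

/-- look up a key -/
def look (s : ℕ) : List ℕ → ℕ
  | [] => 0
  | e :: l => if e % 256 = s then e / 256 else look s l

/-- look up a table -/
def tab (T : List (List (List ℕ))) (J s : ℕ) : List (ℤ × ℕ) :=
  dec 40 (look s ((T.getD (J / 16) []).getD (J % 16) []))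

/-- assemble a certificate -/
def mkData (f : ℕ) (hT pT : List (List (List ℕ))) (Jb iT : List ℕ) : Data where
  face s := f.testBit s
  hT := tab hT
  pT J s := (tab pT J s).map fun t => (t.1, Fin.ofNat 64 t.2)
  Jb b := Jb.getD b 0
  iT b := dec 40 (iT.getD b 0)

/-- homological degrees of the basic classes -/
def dI (b : Fin 64) : ℕ :=
  if b.1 = 0 then 0 else if b.1 ≤ 16 then 1 else if b.1 ≤ 32 then 3 else if b.1 ≤ 62 then 2 else 4

/-- internal degrees of the basic classes -/
def dJ (b : Fin 64) : ℕ :=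
  if b.1 = 0 then 0 else if b.1 ≤ 16 then 3 else if b.1 ≤ 32 then 5 else if b.1 ≤ 62 then 4 else 8

/-- multiplication table -/
def mu (a b : Fin 64) : List (ℤ × Fin 64) :=
  if a.1 = 0 then [(1, b)] else if b.1 = 0 then [(1, a)]
  else if a.1 ≤ 16 then (if b.1 = a.1 + 16 then [(1, 63)] else [])
  else if a.1 ≤ 32 then (if a.1 = b.1 + 16 then [(-1, 63)] else [])
  else if a.1 ≤ 47 then (if b.1 = a.1 + 15 then [(1, 63)] else [])
  else if a.1 ≤ 62 then (if a.1 = b.1 + 15 then [(1, 63)] else [])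
  else []

end Pool.Agent.H448Z.Buch
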