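import Mathlib

/-!
Simple polytopes, their nerve complexes, the Tor algebra of the Stanley-Reisner ring (as the
cohomology of the Koszul algebra), moment-angle complexes and Buchstaber invariants.
-/

set_option autoImplicit false

namespace Pool.Agent.H448Z.Buch

open MvPolynomial

universe u

section Polytope

/-- the polyhedron given by the inequalities `a i · x ≤ b i` -/
def polyhedron {n m : ℕ} (a : Fin m → Fin n → ℝ) (b : Fin m → ℝ) : Set (Fin n → ℝ) :=
  {x | ∀ i, a i ⬝ᵥ x ≤ b i}

open Classical in
/-- A simple `n`-dimensional polytope with `m` facets: a bounded polyhedron in `ℝⁿ` with an interior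
point, given by `m` inequalities each of which defines its own facet, such that every vertex lies in
exactly `n` facets. -/
structure SimplePolytope (n m : ℕ) where
  a : Fin m → Fin n → ℝ
  b : Fin m → ℝ
  bounded : Bornology.IsBounded (polyhedron a b)
  interior : ∃ x, ∀ i, a i ⬝ᵥ x < b i
  facet : ∀ i, ∃ x, a i ⬝ᵥ x = b i ∧ ∀ j, j ≠ i → a j ⬝ᵥ x < b j
  simple : ∀ x ∈ (polyhedron a b).extremePoints ℝ,
    (Finset.univ.filter fun i => a i ⬝ᵥ x = b i).card = n

/-- The simplicial complex `K_P` (boundary of the polar polytope): a set of indices is a simplex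
when the corresponding facets of `P` have a common point. -/
def SimplePolytope.complex {n m : ℕ} (P : SimplePolytope n m) : Set (Finset (Fin m)) :=
  {σ | ∃ x ∈ polyhedron P.a P.b, ∀ i ∈ σ, P.a i ⬝ᵥ x = P.b i}

end Polytope

section DGA

/-- A differential `D` on a `k`-algebra `A`, with the parity automorphism `σ` which enters the
Leibniz rule. -/
structure Diff (k A : Type u) [Field k] [Ring A] [Algebra k A] where
  D : A →ₗ[k] A
  σ : A →ₐ[k] A
  leib : ∀ x y, D (x * y) = D x * y + σ x * D y
  anti : ∀ x, D (σ x) = - σ (D x)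
  invol : ∀ x, σ (σ x) = x
  sq : ∀ x, D (D x) = 0
  one : D 1 = 0

namespace Diff

variable {k A : Type u} [Field k] [Ring A] [Algebra k A] (δ : Diff k A)

/-- the cocycles -/
def cycles : Subalgebra k A where
  carrier := {x | δ.D x = 0}
  mul_mem' := by
    intro x y hx hy
    have hx' : δ.D x = 0 := hx
    have hy' : δ.D y = 0 := hy
    show δ.D (x * y) = 0
    rw [δ.leib, hx', hy', zero_mul, mul_zero, add_zero]
  add_mem' := by
    intro x y hx hy
    have hx' : δ.D x = 0 := hx
    have hy' : δ.D y = 0 := hy
    show δ.D (x + y) = 0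
    rw [map_add, hx', hy', add_zero]
  algebraMap_mem' := by
    intro c
    show δ.D (algebraMap k A c) = 0
    rw [Algebra.algebraMap_eq_smul_one, map_smul, δ.one, smul_zero]

/-- the algebra of cocycles -/
def Cyc : Type u := δ.cycles

instance ringCyc : Ring δ.Cyc := δ.cycles.toRing

instance algCyc : Algebra k δ.Cyc := δ.cycles.algebra

/-- the inclusion of the cocycles -/
def incl : δ.Cyc →ₐ[k] A := δ.cycles.val

theorem D_incl (z : δ.Cyc) : δ.D (δ.incl z) = 0 := z.2

/-- the coboundaries, an ideal of the algebra of cocycles -/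
def bdry : Ideal δ.Cyc where
  carrier := {z | ∃ y, δ.D y = δ.incl z}
  add_mem' := by
    rintro x y ⟨a, ha⟩ ⟨b, hb⟩
    exact ⟨a + b, by rw [map_add, ha, hb, map_add]⟩
  zero_mem' := ⟨0, by rw [map_zero, map_zero]⟩
  smul_mem' := by
    rintro z x ⟨a, ha⟩
    refine ⟨δ.σ (δ.incl z) * a, ?_⟩
    rw [δ.leib, δ.anti, δ.D_incl, δ.invol, ha]
    simp

instance twoSided : δ.bdry.IsTwoSided where
  mul_mem_of_left := by
    rintro x z ⟨a, ha⟩
    refine ⟨a * δ.incl z, ?_⟩
    rw [δ.leib, δ.D_incl, ha]
    simp

/-- the cohomology algebra -/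
def HAlg : Type u := δ.Cyc ⧸ δ.bdry

instance ringHAlg : Ring δ.HAlg := Ideal.Quotient.ring δ.bdry

instance algHAlg : Algebra k δ.HAlg := Ideal.Quotient.algebra k

/-- the class of a cocycle -/
def cls : δ.Cyc →ₐ[k] δ.HAlg := Ideal.Quotient.mkₐ k δ.bdry

/-- the classes of the cocycles which lie in a subspace `S` -/
def HSub (S : Submodule k A) : Submodule k δ.HAlg :=
  (S.comap δ.incl.toLinearMap).map δ.cls.toLinearMap

end Diff

end DGA

section Contract

variable (k : Type u) [Field k] {R M : Type u} [CommRing R] [AddCommGroup M] [Module R M]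
  (φ : Module.Dual R M)

theorem contract_mul (x y : ExteriorAlgebra R M) :
    CliffordAlgebra.contractLeft φ (x * y) = CliffordAlgebra.contractLeft φ x * y
      + CliffordAlgebra.involute x * CliffordAlgebra.contractLeft φ y := by
  induction x using CliffordAlgebra.left_induction with
  | algebraMap r => simp [CliffordAlgebra.contractLeft_algebraMap_mul]
  | add a b ha hb => simp only [add_mul, map_add, ha, hb]; abel
  | ι_mul x a hx =>
    rw [mul_assoc, CliffordAlgebra.contractLeft_ι_mul, CliffordAlgebra.contractLeft_ι_mul, hx]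
    simp only [map_mul, CliffordAlgebra.involute_ι, mul_add, sub_mul, smul_mul_assoc, mul_assoc,
      neg_mul]
    abel

theorem contract_involute (x : ExteriorAlgebra R M) :
    CliffordAlgebra.contractLeft φ (CliffordAlgebra.involute x)
      = - CliffordAlgebra.involute (CliffordAlgebra.contractLeft φ x) := by
  induction x using CliffordAlgebra.left_induction with
  | algebraMap r => simp
  | add a b ha hb => simp only [map_add, ha, hb]; abel
  | ι_mul x a hx =>
    rw [map_mul, CliffordAlgebra.involute_ι, neg_mul, map_neg, CliffordAlgebra.contractLeft_ι_mul,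
      CliffordAlgebra.contractLeft_ι_mul, hx]
    simp

/-- contraction with a linear form -/
noncomputable def contr : ExteriorAlgebra R M →ₗ[R] ExteriorAlgebra R M :=
  CliffordAlgebra.contractLeft φ

/-- contraction with a linear form, as a differential on the exterior algebra -/
noncomputable def contrDiff [Algebra k R] [Module k M] [IsScalarTower k R M] :
    Diff k (ExteriorAlgebra R M) where
  D := (contr φ).restrictScalars k
  σ := CliffordAlgebra.involute.restrictScalars k
  leib := contract_mul φ
  anti := contract_involute φ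
  invol := CliffordAlgebra.involute_involute
  sq := CliffordAlgebra.contractLeft_contractLeft φ
  one := CliffordAlgebra.contractLeft_one _ φ

end Contract

section Koszul

/-- the Koszul algebra `Λ[u₁, …, uₘ] ⊗ R` -/
def Kos (R : Type u) [CommRing R] (m : ℕ) : Type u := ExteriorAlgebra R (Fin m → R)

variable (k : Type u) [Field k] {R : Type u} [CommRing R] [Algebra k R] {m : ℕ}

noncomputable instance ringKos : Ring (Kos R m) := CliffordAlgebra.instRing 0

noncomputable instance algKos : Algebra k (Kos R m) := CliffordAlgebra.instAlgebra' 0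

/-- scalars -/
noncomputable def sc (m : ℕ) (r : R) : Kos R m := algebraMap R (ExteriorAlgebra R (Fin m → R)) r

/-- the exterior generators `u₁, …, uₘ` -/
noncomputable def u (R : Type u) [CommRing R] {m : ℕ} (i : Fin m) : Kos R m :=
  ExteriorAlgebra.ι R (Pi.single i 1)

/-- the Koszul differential: the `R`-linear antiderivation with `d uᵢ = wᵢ` -/
noncomputable def d (w : Fin m → R) : Diff k (Kos R m) :=
  contrDiff k (Fintype.linearCombination R w)

variable {k} (π : MvPolynomial (Fin m) k →ₐ[k] R)

/-- the images of the variables -/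
noncomputable def v (i : Fin m) : R := π (X i)

/-- the part of bidegree `(-i, 2j)` of the Koszul algebra (`uᵢ` has bidegree `(-1, 2)` and `vᵢ` has
bidegree `(0, 2)`) -/
noncomputable def bideg (i j : ℕ) : Submodule k (Kos R m) :=
  Submodule.span k {x | ∃ (q : ℕ) (p : MvPolynomial (Fin m) k) (l : List (Fin m)),
    i + q = j ∧ p.IsHomogeneous q ∧ l.length = i ∧ x = sc m (π p) * (l.map (u R)).prod}

end Koszul

section Tor

variable (k : Type u) [Field k] {m : ℕ} (K : Set (Finset (Fin m)))

/-- the Stanley-Reisner ideal -/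
noncomputable def srIdeal : Ideal (MvPolynomial (Fin m) k) :=
  Ideal.span {p | ∃ σ : Finset (Fin m), σ ∉ K ∧ p = ∏ i ∈ σ, X i}

/-- the Stanley-Reisner ring `k[K]` -/
def SR : Type u := MvPolynomial (Fin m) k ⧸ srIdeal k K

noncomputable instance commRingSR : CommRing (SR k K) := Ideal.Quotient.commRing (srIdeal k K)

noncomputable instance algSR : Algebra k (SR k K) := Ideal.Quotient.algebra k

/-- the projection `k[m] → k[K]` -/
noncomputable def toSR : MvPolynomial (Fin m) k →ₐ[k] SR k K := Ideal.Quotient.mkₐ k (srIdeal k K)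

/-- the algebra `Tor_{k[m]}(k[K], k)`: the cohomology of the Koszul algebra of `k[K]` -/
def TorAlg : Type u := (d k (v (toSR k K))).HAlg

noncomputable instance ringTor : Ring (TorAlg k K) := (d k (v (toSR k K))).ringHAlg

noncomputable instance algTor : Algebra k (TorAlg k K) := (d k (v (toSR k K))).algHAlg

/-- `Tor^{-i,2j}`: the classes of the cocycles of bidegree `(-i, 2j)` -/
noncomputable def Tor (i j : ℕ) : Submodule k (TorAlg k K) :=
  (d k (v (toSR k K))).HSub (bideg (toSR k K) i j)

/-- the bigraded Betti number `β^{-i,2j}(K)` -/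
noncomputable def betti (i j : ℕ) : ℕ := Module.finrank k (Tor k K i j)

/-- the Tor algebras of `K` and `L` are isomorphic as bigraded algebras -/
def TorIso (L : Set (Finset (Fin m))) : Prop :=
  ∃ φ : TorAlg k K ≃ₐ[k] TorAlg k L,
    ∀ i j, (Tor k K i j).map φ.toLinearEquiv.toLinearMap = Tor k L i j

end Tor

section Buchstaber

variable {m : ℕ} (K : Set (Finset (Fin m)))

/-- the moment-angle complex -/
def ZK : Set (Fin m → ℂ) := {z | ∃ σ ∈ K, ∀ i, ‖z i‖ ≤ 1 ∧ (i ∉ σ → ‖z i‖ = 1)}

/-- the real moment-angle complex -/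
def RZK : Set (Fin m → ℝ) := {x | ∃ σ ∈ K, ∀ i, |x i| ≤ 1 ∧ (i ∉ σ → |x i| = 1)}

/-- the Buchstaber invariant: the largest dimension of a toric subgroup of `Tᵐ` which acts freely
on the moment-angle complex -/
noncomputable def buch : ℕ :=
  sSup {r : ℕ | ∃ H : Subgroup (Fin m → Circle), Nonempty (H ≃ₜ* (Fin r → Circle)) ∧
    ∀ t ∈ H, ∀ z ∈ ZK K, (fun i => (t i : ℂ) * z i) = z → t = 1}

/-- the real Buchstaber invariant: the largest rank of a subgroup of `{±1}ᵐ` which acts freely on
the real moment-angle complex -/
noncomputable def buchR : ℕ :=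
  sSup {r : ℕ | ∃ H : Subgroup (Fin m → ℤˣ), Nonempty (H ≃* (Fin r → ℤˣ)) ∧
    ∀ t ∈ H, ∀ x ∈ RZK K, (fun i => ((t i : ℤ) : ℝ) * x i) = x → t = 1}

end Buchstaber

end Pool.Agent.H448Z.Buch
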