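import Mathlib

/-!
List computations in an exterior algebra on finitely many generators.
-/

set_option autoImplicit false

namespace Pool.Agent.H448Z.Buch

section Generic

variable {R : Type*} [CommRing R] {m : ℕ}

/-- generators -/
noncomputable def gu (R : Type*) [CommRing R] {m : ℕ} (i : Fin m) :
    ExteriorAlgebra R (Fin m → R) := ExteriorAlgebra.ι R (Pi.single i 1)

/-- product of generators along a list -/
noncomputable def gul (R : Type*) [CommRing R] {m : ℕ} (l : List (Fin m)) :
    ExteriorAlgebra R (Fin m → R) := (l.map (gu R)).prod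

/-- differential -/
noncomputable def gd (w : Fin m → R) :
    ExteriorAlgebra R (Fin m → R) →ₗ[R] ExteriorAlgebra R (Fin m → R) :=
  CliffordAlgebra.contractLeft (Fintype.linearCombination R w)

@[simp] theorem gul_nil : gul R ([] : List (Fin m)) = 1 := rfl

theorem gul_cons (a : Fin m) (l : List (Fin m)) : gul R (a :: l) = gu R a * gul R l := by
  simp [gul]

theorem gul_append (l l' : List (Fin m)) : gul R (l ++ l') = gul R l * gul R l' := by
  simp [gul]

theorem gu_sq (a : Fin m) : gu R a * gu R a = 0 := ExteriorAlgebra.ι_sq_zero _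

theorem gu_swap (a b : Fin m) : gu R a * gu R b = - (gu R b * gu R a) :=
  eq_neg_of_add_eq_zero_left (ExteriorAlgebra.ι_add_mul_swap _ _)

theorem gd_gu_mul (w : Fin m → R) (a : Fin m) (x : ExteriorAlgebra R (Fin m → R)) :
    gd w (gu R a * x) = w a • x - gu R a * gd w x := by
  unfold gd gu
  rw [CliffordAlgebra.contractLeft_ι_mul]
  simp [Fintype.linearCombination_apply_single]

theorem gd_one (w : Fin m → R) : gd w 1 = 0 := CliffordAlgebra.contractLeft_one _ _

theorem gd_gd (w : Fin m → R) (x : ExteriorAlgebra R (Fin m → R)) : gd w (gd w x) = 0 :=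
  CliffordAlgebra.contractLeft_contractLeft _ _

/-- terms of the differential of a product of generators -/
def dl {ι : Type} : List ι → List (ℤ × ι × List ι)
  | [] => []
  | a :: l => (1, a, l) :: (dl l).map fun t => (-t.1, t.2.1, a :: t.2.2)

theorem gd_gul (w : Fin m → R) (l : List (Fin m)) :
    gd w (gul R l) = ((dl l).map fun t => t.1 • w t.2.1 • gul R t.2.2).sum := by
  induction l with
  | nil => simp [dl, gd_one]
  | cons a l ih =>
    rw [gul_cons, gd_gu_mul, ih]
    simp only [dl, List.map_cons, List.sum_cons, one_smul, List.map_map]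
    rw [sub_eq_add_neg, ← neg_mul, ← List.sum_map_mul_left]
    congr 2
    refine List.map_congr_left fun t _ => ?_
    simp only [Function.comp, gul_cons, neg_mul, mul_smul_comm, neg_smul, smul_neg]

theorem mem_dl {ι : Type} [DecidableEq ι] (l : List ι) (hl : l.Nodup) (t : ℤ × ι × List ι)
    (ht : t ∈ dl l) : t.2.1 ∈ l ∧ t.2.2 = l.erase t.2.1 := by
  induction l generalizing t with
  | nil => simp [dl] at ht
  | cons a l ih =>
    rw [List.nodup_cons] at hl
    simp only [dl, List.mem_cons, List.mem_map] at ht
    rcases ht with rfl | ⟨s, hs, rfl⟩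
    · simp
    · obtain ⟨h1, h2⟩ := ih hl.2 s hs
      have hne : a ≠ s.2.1 := fun h => hl.1 (h ▸ h1)
      refine ⟨List.mem_cons_of_mem _ h1, ?_⟩
      simp only
      rw [List.erase_cons_tail (by simpa using hne), h2]

theorem gu_mul_gul_of_mem (a : Fin m) (l : List (Fin m)) (h : a ∈ l) : gu R a * gul R l = 0 := by
  induction l with
  | nil => simp at h
  | cons b l ih =>
    rw [gul_cons, ← mul_assoc]
    by_cases hab : a = b
    · subst hab; rw [gu_sq, zero_mul]
    · have : a ∈ l := by simpa [hab] using h
      rw [gu_swap, neg_mul, mul_assoc, ih this]; simp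

theorem gul_eq_zero (l : List (Fin m)) (h : ¬ l.Nodup) : gul R l = 0 := by
  induction l with
  | nil => simp at h
  | cons a l ih =>
    rw [gul_cons]
    by_cases ha : a ∈ l
    · exact gu_mul_gul_of_mem a l ha
    · have : ¬ l.Nodup := fun h' => h (List.nodup_cons.2 ⟨ha, h'⟩)
      rw [ih this, mul_zero]

theorem gul_perm {l l' : List (Fin m)} (h : l.Perm l') : ∃ c : ℤ, gul R l = c • gul R l' := by
  induction h with
  | nil => exact ⟨1, by simp⟩
  | cons a _ ih =>
    obtain ⟨c, hc⟩ := ih
    exact ⟨c, by rw [gul_cons, gul_cons, hc, mul_smul_comm]⟩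
  | swap a b l =>
    refine ⟨-1, ?_⟩
    rw [gul_cons, gul_cons, gul_cons, gul_cons, ← mul_assoc, ← mul_assoc, gu_swap]
    simp
  | trans _ _ ih1 ih2 =>
    obtain ⟨c, hc⟩ := ih1
    obtain ⟨c', hc'⟩ := ih2
    exact ⟨c * c', by rw [hc, hc', mul_smul]⟩

/-- the increasing list of the elements of a set -/
def lst (F : Finset (Fin m)) : List (Fin m) := (List.finRange m).filter (· ∈ F)

theorem lst_nodup (F : Finset (Fin m)) : (lst F).Nodup := (List.nodup_finRange m).filter _

@[simp] theorem mem_lst (F : Finset (Fin m)) (a : Fin m) : a ∈ lst F ↔ a ∈ F := by simp [lst]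

theorem lst_toFinset (F : Finset (Fin m)) : (lst F).toFinset = F := by ext; simp

theorem lst_length (F : Finset (Fin m)) : (lst F).length = F.card := by
  rw [← List.toFinset_card_of_nodup (lst_nodup F), lst_toFinset]

theorem lst_erase (F : Finset (Fin m)) (a : Fin m) : (lst F).erase a = lst (F.erase a) := by
  rw [(lst_nodup F).erase_eq_filter]
  unfold lst
  rw [List.filter_filter]
  refine List.filter_congr fun x _ => ?_
  by_cases h1 : x = a <;> by_cases h2 : x ∈ F <;> simp [h1, h2]

theorem lst_eq_sort (F : Finset (Fin m)) : F.sort (· ≤ ·) = lst F := by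
  have h : (lst F).Pairwise (· ≤ ·) :=
    ((List.sortedLT_finRange m).sortedLE.pairwise).filter _
  have := (List.toFinset_sort (· ≤ ·) (lst_nodup F)).2 h
  rwa [lst_toFinset] at this

theorem gul_eq (l : List (Fin m)) (h : l.Nodup) :
    ∃ c : ℤ, gul R l = c • gul R (lst l.toFinset) := by
  refine gul_perm ?_
  rw [List.perm_ext_iff_of_nodup h (lst_nodup _)]
  simp

theorem basis_eq (F : Finset (Fin m)) :
    (Pi.basisFun R (Fin m)).ExteriorAlgebra F = gul R (lst F) := by
  rw [ExteriorAlgebra.basis_apply_ofCard (n := F.card) _ rfl, ExteriorAlgebra.ιMulti_family,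
    ExteriorAlgebra.ιMulti_apply, ← lst_eq_sort, ← Finset.listMap_orderEmbOfFin_finRange F rfl]
  unfold gul
  rw [List.map_map, List.ofFn_eq_map]
  congr 1
  refine List.map_congr_left fun i _ => ?_
  simp [gu, Set.powersetCard.ofFinEmbEquiv_symm_apply]

/-- insertion of a generator with sign -/
def insl (a : Fin m) : List (Fin m) → ℤ × List (Fin m)
  | [] => (1, [a])
  | b :: l => if a < b then (1, a :: b :: l) else (-(insl a l).1, b :: (insl a l).2)

theorem gu_mul_gul (a : Fin m) (l : List (Fin m)) :
    gu R a * gul R l = (insl a l).1 • gul R (insl a l).2 := by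
  induction l with
  | nil => simp [insl, gul]
  | cons b l ih =>
    unfold insl
    split_ifs with h
    · simp [gul_cons]
    · rw [gul_cons, gul_cons, ← mul_assoc, gu_swap, neg_mul, mul_assoc, ih, mul_smul_comm,
        neg_smul]

/-- product of two lists of generators with sign -/
def mull : List (Fin m) → List (Fin m) → ℤ × List (Fin m)
  | [], l' => (1, l')
  | a :: l, l' => ((mull l l').1 * (insl a (mull l l').2).1, (insl a (mull l l').2).2)

theorem gul_mul_gul (l l' : List (Fin m)) :
    gul R l * gul R l' = (mull l l').1 • gul R (mull l l').2 := by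
  induction l with
  | nil => simp [mull]
  | cons a l ih =>
    rw [gul_cons, mul_assoc, ih, mul_smul_comm, gu_mul_gul]
    simp [mull, mul_smul]

end Generic

section Norm

variable {κ : Type} [DecidableEq κ]

/-- merge a term into a formal sum -/
def ins (c : ℤ) (s : κ) : List (ℤ × κ) → List (ℤ × κ)
  | [] => [(c, s)]
  | t :: l => if s = t.2 then (c + t.1, t.2) :: l else t :: ins c s l

/-- collect terms -/
def nrm : List (ℤ × κ) → List (ℤ × κ)
  | [] => []
  | t :: l => ins t.1 t.2 (nrm l)

/-- the formal sum is zero -/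
def isZ (l : List (ℤ × κ)) : Bool := (nrm l).all fun t => t.1 == 0

/-- evaluation of formal sums -/
def ev {M : Type*} [AddCommGroup M] (g : κ → M) (l : List (ℤ × κ)) : M :=
  (l.map fun t => t.1 • g t.2).sum

variable {M : Type*} [AddCommGroup M] (g : κ → M)

omit [DecidableEq κ] in
@[simp] theorem ev_nil : ev g [] = 0 := rfl

omit [DecidableEq κ] in
@[simp] theorem ev_cons (t : ℤ × κ) (l : List (ℤ × κ)) : ev g (t :: l) = t.1 • g t.2 + ev g l := by
  simp [ev]

omit [DecidableEq κ] in
@[simp] theorem ev_append (l l' : List (ℤ × κ)) : ev g (l ++ l') = ev g l + ev g l' := by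
  simp [ev]

theorem ev_ins (c : ℤ) (s : κ) (l : List (ℤ × κ)) : ev g (ins c s l) = c • g s + ev g l := by
  induction l with
  | nil => simp [ins]
  | cons t l ih =>
    unfold ins
    split_ifs with h
    · subst h; simp [add_smul, add_assoc]
    · simp [ih]; abel

theorem ev_nrm (l : List (ℤ × κ)) : ev g (nrm l) = ev g l := by
  induction l with
  | nil => rfl
  | cons t l ih => simp [nrm, ev_ins, ih]

theorem ev_isZ (l : List (ℤ × κ)) (h : isZ l = true) : ev g l = 0 := by
  rw [← ev_nrm]
  unfold isZ at h
  generalize nrm l = l' at h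
  induction l' with
  | nil => rfl
  | cons t l ih =>
    simp only [List.all_cons, Bool.and_eq_true, beq_iff_eq] at h
    simp [h.1, ih h.2]

/-- scale a formal sum -/
def scl (c : ℤ) (l : List (ℤ × κ)) : List (ℤ × κ) := l.map fun t => (c * t.1, t.2)

omit [DecidableEq κ] in
theorem ev_scl (c : ℤ) (l : List (ℤ × κ)) : ev g (scl c l) = c • ev g l := by
  induction l with
  | nil => simp [scl]
  | cons t l ih =>
    have : scl c (t :: l) = (c * t.1, t.2) :: scl c l := rfl
    rw [this, ev_cons, ev_cons, ih, smul_add, mul_smul]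

/-- apply a map given on terms -/
def app {κ' : Type} (f : κ → List (ℤ × κ')) : List (ℤ × κ) → List (ℤ × κ')
  | [] => []
  | t :: l => scl t.1 (f t.2) ++ app f l

omit [DecidableEq κ] in
theorem ev_app {κ' : Type} {N : Type*} [AddCommGroup N] (g' : κ' → N) (φ : M →+ N)
    (f : κ → List (ℤ × κ')) (l : List (ℤ × κ)) (h : ∀ t ∈ l, φ (g t.2) = ev g' (f t.2)) :
    φ (ev g l) = ev g' (app f l) := by
  induction l with
  | nil => simp [app]
  | cons t l ih =>
    rw [ev_cons, map_add, map_zsmul, h t (by simp), ih fun s hs => h s (by simp [hs])]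
    simp [app, ev_scl]

end Norm

end Pool.Agent.H448Z.Buch
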