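import Pool.Agent.H448Z.Buch.Defs

/-!
Bounds for the Buchstaber invariants through elements of order two.
-/

set_option autoImplicit false

namespace Pool.Agent.H448Z.Buch

variable {m : ℕ} (K : Set (Finset (Fin m)))

/-- combinatorial shadow of a free action of an elementary abelian 2-group of rank `r` -/
def Core (r : ℕ) : Prop :=
  ∃ g : (Fin r → ℤˣ) → Fin m → Bool, (∀ c c' i, g (c * c') i = xor (g c i) (g c' i)) ∧
    ∀ c, c ≠ 1 → ∀ σ ∈ K, ∃ i, i ∉ σ ∧ g c i = true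

variable {K}

theorem core_of_hom {G : Type} [CommGroup G]
    (hG : ∀ x y : G, x * x = 1 → y * y = 1 → x ≠ 1 → y ≠ 1 → x * y = 1) {r : ℕ}
    (ψ : (Fin r → ℤˣ) →* (Fin m → G)) (hψ : Function.Injective ψ)
    (hfree : ∀ c, ∀ σ ∈ K, (∀ i, i ∉ σ → ψ c i = 1) → ψ c = 1) : Core K r := by
  classical
  have hsq : ∀ c i, ψ c i * ψ c i = 1 := fun c i => by
    have : c * c = 1 := by ext j; simp
    rw [← Pi.mul_apply, ← map_mul, this, map_one, Pi.one_apply]
  refine ⟨fun c i => decide (ψ c i ≠ 1), fun c c' i => ?_, fun c hc σ hσ => ?_⟩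
  · simp only [map_mul, Pi.mul_apply]
    by_cases h1 : ψ c i = 1 <;> by_cases h2 : ψ c' i = 1
    · simp [h1, h2]
    · simp [h1, h2]
    · simp [h1, h2]
    · simp [h1, h2, hG _ _ (hsq c i) (hsq c' i) h1 h2]
  · by_contra h
    push Not at h
    refine hc (hψ ?_)
    rw [map_one]
    refine hfree c σ hσ fun i hi => ?_
    simpa using h i hi

theorem Core.inj {r : ℕ} {g : (Fin r → ℤˣ) → Fin m → Bool}
    (h1 : ∀ c c' i, g (c * c') i = xor (g c i) (g c' i))
    (h2 : ∀ c, c ≠ 1 → ∀ σ ∈ K, ∃ i, i ∉ σ ∧ g c i = true) {σ : Finset (Fin m)} (hσ : σ ∈ K)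
    {c c' : Fin r → ℤˣ} (h : ∀ i, i ∉ σ → g c i = g c' i) : c = c' := by
  have h3 : c * c' = 1 := by
    by_contra hne
    obtain ⟨i, hi, hg⟩ := h2 _ hne σ hσ
    rw [h1, h i hi] at hg
    simp at hg
  have h4 : c' * c' = 1 := by ext j; simp
  exact mul_right_cancel (h3.trans h4.symm)

theorem Core.le {r : ℕ} (h : Core K r) {σ : Finset (Fin m)} (hσ : σ ∈ K) : r ≤ m := by
  obtain ⟨g, h1, h2⟩ := h
  have hinj : Function.Injective g := fun c c' e => Core.inj h1 h2 hσ fun i _ => by rw [e]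
  have := Fintype.card_le_of_injective g hinj
  simp only [Fintype.card_pi, Fintype.card_units_int, Finset.prod_const, Finset.card_univ,
    Fintype.card_fin, Fintype.card_bool] at this
  exact (Nat.pow_le_pow_iff_right (by norm_num)).1 this

/-- the embedding of the signs in the circle -/
noncomputable def sgnC : ℤˣ →* Circle where
  toFun e := ⟨((e : ℤ) : ℂ), by
    rcases Int.units_eq_one_or e with rfl | rfl <;> simp [Submonoid.unitSphere]⟩
  map_one' := by ext; simp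
  map_mul' x y := by ext; simp

theorem sgnC_coe (e : ℤˣ) : (sgnC e : ℂ) = ((e : ℤ) : ℂ) := rfl

theorem sgnC_inj : Function.Injective sgnC := by
  intro x y h
  have := congrArg (fun z : Circle => (z : ℂ)) h
  simp only [sgnC_coe, Int.cast_inj] at this
  exact Units.ext this

theorem core_of_C {r : ℕ} (H : Subgroup (Fin m → Circle)) (e : H ≃ₜ* (Fin r → Circle))
    (hfree : ∀ t ∈ H, ∀ z ∈ ZK K, (fun i => (t i : ℂ) * z i) = z → t = 1) : Core K r := by
  classical
  let ψ : (Fin r → ℤˣ) →* (Fin m → Circle) :=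
    H.subtype.comp (e.symm.toMulEquiv.toMonoidHom.comp (sgnC.compLeft (Fin r)))
  refine core_of_hom ?_ ψ ?_ ?_
  · intro x y hx hy hx1 hy1
    have key : ∀ w : Circle, w * w = 1 → w ≠ 1 → (w : ℂ) = -1 := fun w hw hw1 => by
      have h1 : (w : ℂ) * w = 1 := by rw [← Circle.coe_mul, hw, Circle.coe_one]
      rcases mul_self_eq_one_iff.1 h1 with h | h
      · exact absurd (Circle.ext h) hw1
      · exact h
    ext
    rw [Circle.coe_mul, key x hx hx1, key y hy hy1]
    simp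
  · refine H.subtype_injective.comp (e.symm.injective.comp ?_)
    intro c c' h
    funext j
    exact sgnC_inj (congrFun h j)
  · intro c σ hσ h
    refine hfree (ψ c) (SetLike.coe_mem _) (fun i => if i ∈ σ then 0 else 1) ⟨σ, hσ, fun i => ?_⟩ ?_
    · by_cases hi : i ∈ σ <;> simp [hi]
    · funext i
      by_cases hi : i ∈ σ
      · simp [hi]
      · simp [hi, h i hi]

theorem core_of_R {r : ℕ} (H : Subgroup (Fin m → ℤˣ)) (e : H ≃* (Fin r → ℤˣ))
    (hfree : ∀ t ∈ H, ∀ x ∈ RZK K, (fun i => ((t i : ℤ) : ℝ) * x i) = x → t = 1) : Core K r := by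
  classical
  let ψ : (Fin r → ℤˣ) →* (Fin m → ℤˣ) := H.subtype.comp e.symm.toMonoidHom
  refine core_of_hom ?_ ψ (H.subtype_injective.comp e.symm.injective) ?_
  · decide
  · intro c σ hσ h
    refine hfree (ψ c) (SetLike.coe_mem _) (fun i => if i ∈ σ then 0 else 1) ⟨σ, hσ, fun i => ?_⟩ ?_
    · by_cases hi : i ∈ σ <;> simp [hi]
    · funext i
      by_cases hi : i ∈ σ
      · simp [hi]
      · simp [hi, h i hi]

theorem buch_le (n : ℕ) (h : ∀ r, Core K r → r ≤ n) : buch K ≤ n :=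
  csSup_le' fun r ⟨H, ⟨e⟩, hf⟩ => h r (core_of_C H e hf)

theorem buchR_le (n : ℕ) (h : ∀ r, Core K r → r ≤ n) : buchR K ≤ n :=
  csSup_le' fun r ⟨H, ⟨e⟩, hf⟩ => h r (core_of_R H e hf)

/-- the homomorphism given by an integer matrix -/
def matHom {G : Type} [CommGroup G] {r : ℕ} (M : Fin m → Fin r → ℤ) :
    (Fin r → G) →* (Fin m → G) where
  toFun t i := ∏ j, t j ^ M i j
  map_one' := by funext i; simp
  map_mul' s t := by funext i; simp [mul_zpow, Finset.prod_mul_distrib]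

theorem prod_zpow_sum {G ι : Type} [CommGroup G] (s : Finset ι) (f : ι → ℤ) (x : G) :
    ∏ i ∈ s, x ^ f i = x ^ ∑ i ∈ s, f i := by
  classical
  induction s using Finset.induction_on with
  | empty => simp
  | insert a s ha ih => rw [Finset.prod_insert ha, Finset.sum_insert ha, ih, zpow_add]

theorem matHom_free {G : Type} [CommGroup G] {r : ℕ} (M : Fin m → Fin r → ℤ)
    (σ : Finset (Fin m)) (N : Fin r → Fin m → ℤ) (hN : ∀ j, ∀ i ∈ σ, N j i = 0)
    (hNM : ∀ j l, ∑ i, M i l * N j i = if l = j then 1 else 0) (t : Fin r → G)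
    (h : ∀ i, i ∉ σ → matHom M t i = 1) : t = 1 := by
  funext j
  have h1 : ∏ i, (matHom M t i) ^ N j i = 1 := by
    refine Finset.prod_eq_one fun i _ => ?_
    by_cases hi : i ∈ σ
    · rw [hN j i hi, zpow_zero]
    · rw [h i hi, one_zpow]
  have h2 : ∏ i, (matHom M t i) ^ N j i = ∏ l, t l ^ (∑ i, M i l * N j i) := by
    simp only [matHom, MonoidHom.coe_mk, OneHom.coe_mk, ← Finset.prod_zpow, ← zpow_mul]
    rw [Finset.prod_comm]
    exact Finset.prod_congr rfl fun l _ => prod_zpow_sum _ _ _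
  rw [h2] at h1
  simp only [hNM] at h1
  rw [Finset.prod_eq_single j (fun l _ hl => by simp [hl]) (by simp)] at h1
  simpa using h1

theorem le_buch {r : ℕ} (M : Fin m → Fin r → ℤ) {σ₀ : Finset (Fin m)} (h₀ : σ₀ ∈ K)
    (hM : ∀ σ ∈ K, ∃ N : Fin r → Fin m → ℤ, (∀ j, ∀ i ∈ σ, N j i = 0) ∧
      ∀ j l, ∑ i, M i l * N j i = if l = j then 1 else 0) : r ≤ buch K := by
  refine le_csSup ⟨m, fun r ⟨H, ⟨e⟩, hf⟩ => (core_of_C H e hf).le h₀⟩ ?_
  have hfree : ∀ σ ∈ K, ∀ t : Fin r → Circle, (∀ i, i ∉ σ → matHom M t i = 1) → t = 1 := by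
    intro σ hσ t h
    obtain ⟨N, h1, h2⟩ := hM σ hσ
    exact matHom_free M σ N h1 h2 t h
  have hinj : Function.Injective (matHom (G := Circle) M) :=
    (injective_iff_map_eq_one _).2 fun t h => hfree σ₀ h₀ t fun i _ => by rw [h]; rfl
  have hcont : Continuous (matHom (G := Circle) M) := by
    refine continuous_pi fun i => ?_
    change Continuous fun t : Fin r → Circle => ∏ j, t j ^ M i j
    exact continuous_finsetProd _ fun j _ => (continuous_apply j).zpow _
  let e0 := MonoidHom.ofInjective hinj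
  have he0 : Continuous e0 := hcont.subtype_mk _
  let e1 := he0.homeoOfEquivCompactToT2 (f := e0.toEquiv)
  refine ⟨(matHom M).range, ⟨ContinuousMulEquiv.symm ⟨e0, he0, e1.symm.continuous⟩⟩, ?_⟩
  rintro _ ⟨t, rfl⟩ z ⟨σ, hσ, hz⟩ h
  rw [hfree σ hσ t fun i hi => ?_, map_one]
  have h1 := congrFun h i
  have h2 : z i ≠ 0 := by
    intro h0
    have := (hz i).2 hi
    rw [h0] at this
    simp at this
  exact Circle.ext (by simpa [h2] using h1)

theorem le_buchR {r : ℕ} (M : Fin m → Fin r → ℤ) {σ₀ : Finset (Fin m)} (h₀ : σ₀ ∈ K)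
    (hM : ∀ σ ∈ K, ∃ N : Fin r → Fin m → ℤ, (∀ j, ∀ i ∈ σ, N j i = 0) ∧
      ∀ j l, ∑ i, M i l * N j i = if l = j then 1 else 0) : r ≤ buchR K := by
  refine le_csSup ⟨m, fun r ⟨H, ⟨e⟩, hf⟩ => (core_of_R H e hf).le h₀⟩ ?_
  have hfree : ∀ σ ∈ K, ∀ t : Fin r → ℤˣ, (∀ i, i ∉ σ → matHom M t i = 1) → t = 1 := by
    intro σ hσ t h
    obtain ⟨N, h1, h2⟩ := hM σ hσ
    exact matHom_free M σ N h1 h2 t h
  have hinj : Function.Injective (matHom (G := ℤˣ) M) :=
    (injective_iff_map_eq_one _).2 fun t h => hfree σ₀ h₀ t fun i _ => by rw [h]; rfl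
  refine ⟨(matHom M).range, ⟨(MonoidHom.ofInjective hinj).symm⟩, ?_⟩
  rintro _ ⟨t, rfl⟩ z ⟨σ, hσ, hz⟩ h
  rw [hfree σ hσ t fun i hi => ?_, map_one]
  have h1 := congrFun h i
  have h2 : z i ≠ 0 := by
    intro h0
    have := (hz i).2 hi
    rw [h0] at this
    simp at this
  have h3 : (((matHom (G := ℤˣ) M t i : ℤˣ) : ℤ) : ℝ) = 1 := by simpa [h2] using h1
  exact Units.val_eq_one.1 (Int.cast_eq_one.1 h3)

end Pool.Agent.H448Z.Buch
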