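import Pool.Agent.H448Z.Buch.Poly
import Pool.Agent.H448Z.Buch.DataP

set_option autoImplicit false

namespace Pool.Agent.H448Z.Buch

/-- integer normals of the facets -/
def aP : Fin 8 → Fin 4 → ℤ :=
  ![![2, -1, 1, -2], ![-1, 0, -2, 1], ![1, 1, -1, 0], ![1, -2, 1, -1], ![0, -1, 1, 2], ![-2, 2, 2, -2], ![-1, 1, 2, 2], ![-2, 0, -2, -2]]

/-- vertices: mask of the facets, numerators, denominator -/
def vertP : List (ℕ × (Fin 4 → ℤ) × ℤ) := [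
  (15, ![4, -3, -4, 1], 5),
  (135, ![12, -9, -19, -4], 22),
  (139, ![9, -12, -16, -3], 20),
  (29, ![2, -1, -1, 1], 2),
  (85, ![6, 2, 2, 3], 6),
  (101, ![34, 38, 22, 1], 50),
  (165, ![10, 16, -8, -19], 34),
  (89, ![2, -1, 4, 1], 7),
  (105, ![3, -5, 27, -2], 42),
  (169, ![-5, -8, 4, -13], 28),
  (30, ![16, -11, -12, 9], 17),
  (86, ![8, 7, -6, 17], 21),
  (102, ![-7, 37, -12, 11], 42),
  (166, ![-3, 14, -7, 1], 18),
  (154, ![-9, -18, -4, 3], 20),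
  (210, ![-21, -11, 1, 7], 26),
  (226, ![-6, 2, -1, 2], 10),
  (120, ![-1, -1, 1, 0], 2),
  (184, ![-23, -20, 10, -1], 28),
  (240, ![-12, -8, 4, 1], 14)]

/-- points in the relative interiors of the facets -/
def fptP : Fin 8 → (Fin 4 → ℤ) × ℤ :=
  ![(![1, 0, 0, 0], 2), (![0, -1, -1, 1], 3), (![1, 0, -1, 0], 2), (![0, -1, 0, 0], 2), (![1, 0, 0, 1], 2), (![0, 1, 0, 0], 2), (![-1, 0, 0, 1], 3), (![-1, -1, 0, 0], 2)]

/-- missing triangles -/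
def missP : List (Fin 8 × Fin 8 × Fin 8) :=
  [(0, 1, 4), (0, 1, 5), (0, 1, 6), (0, 4, 5), (0, 4, 7), (0, 6, 7), (1, 3, 5), (1, 3, 6), (1, 4, 5), (2, 3, 5), (2, 3, 6), (2, 3, 7), (2, 4, 5), (2, 4, 7), (2, 6, 7), (3, 6, 7)]

theorem dotP0 (x : Fin 4 → ℝ) : cst aP 0 ⬝ᵥ x = (2) * x 0 + (-1) * x 1 + (1) * x 2 + (-2) * x 3 := by
  simp [cst, aP, dotProduct, Fin.sum_univ_four]

theorem dotP1 (x : Fin 4 → ℝ) : cst aP 1 ⬝ᵥ x = (-1) * x 0 + (0) * x 1 + (-2) * x 2 + (1) * x 3 := by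
  simp [cst, aP, dotProduct, Fin.sum_univ_four]

theorem dotP2 (x : Fin 4 → ℝ) : cst aP 2 ⬝ᵥ x = (1) * x 0 + (1) * x 1 + (-1) * x 2 + (0) * x 3 := by
  simp [cst, aP, dotProduct, Fin.sum_univ_four]

theorem dotP3 (x : Fin 4 → ℝ) : cst aP 3 ⬝ᵥ x = (1) * x 0 + (-2) * x 1 + (1) * x 2 + (-1) * x 3 := by
  simp [cst, aP, dotProduct, Fin.sum_univ_four]

theorem dotP4 (x : Fin 4 → ℝ) : cst aP 4 ⬝ᵥ x = (0) * x 0 + (-1) * x 1 + (1) * x 2 + (2) * x 3 := by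
  simp [cst, aP, dotProduct, Fin.sum_univ_four]

theorem dotP5 (x : Fin 4 → ℝ) : cst aP 5 ⬝ᵥ x = (-2) * x 0 + (2) * x 1 + (2) * x 2 + (-2) * x 3 := by
  simp [cst, aP, dotProduct, Fin.sum_univ_four]

theorem dotP6 (x : Fin 4 → ℝ) : cst aP 6 ⬝ᵥ x = (-1) * x 0 + (1) * x 1 + (2) * x 2 + (2) * x 3 := by
  simp [cst, aP, dotProduct, Fin.sum_univ_four]

theorem dotP7 (x : Fin 4 → ℝ) : cst aP 7 ⬝ᵥ x = (-2) * x 0 + (0) * x 1 + (-2) * x 2 + (-2) * x 3 := by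
  simp [cst, aP, dotProduct, Fin.sum_univ_four]

theorem bddP (x : Fin 4 → ℝ) (hx : x ∈ polyhedron (cst aP) 1) (j : Fin 4) : |x j| ≤ 3 := by
  have h0 := hx 0
  have h1 := hx 1
  have h2 := hx 2
  have h3 := hx 3
  have h4 := hx 4
  have h5 := hx 5
  have h6 := hx 6
  have h7 := hx 7
  simp only [dotP0, dotP1, dotP2, dotP3, dotP4, dotP5, dotP6, dotP7, Pi.one_apply] at h0 h1 h2 h3 h4 h5 h6 h7
  rw [abs_le]
  fin_cases j <;> constructor <;> simp only [Fin.zero_eta, Fin.mk_one, Fin.reduceFinMk] <;> linarith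

theorem nomissP (x : Fin 4 → ℝ) (hx : x ∈ polyhedron (cst aP) 1) :
    ∀ T ∈ missP, ¬ (cst aP T.1 ⬝ᵥ x = 1 ∧ cst aP T.2.1 ⬝ᵥ x = 1 ∧ cst aP T.2.2 ⬝ᵥ x = 1) := by
  have h0 := hx 0
  have h1 := hx 1
  have h2 := hx 2
  have h3 := hx 3
  have h4 := hx 4
  have h5 := hx 5
  have h6 := hx 6
  have h7 := hx 7
  simp only [dotP0, dotP1, dotP2, dotP3, dotP4, dotP5, dotP6, dotP7, Pi.one_apply] at h0 h1 h2 h3 h4 h5 h6 h7
  simp only [missP, List.forall_mem_cons, List.not_mem_nil, false_imp_iff, implies_true, and_true,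
    dotP0, dotP1, dotP2, dotP3, dotP4, dotP5, dotP6, dotP7]
  refine ⟨?_, ?_, ?_, ?_, ?_, ?_, ?_, ?_, ?_, ?_, ?_, ?_, ?_, ?_, ?_, ?_⟩ <;> rintro ⟨e1, e2, e3⟩ <;> linarith

theorem certP : PCert aP dataP.face vertP fptP missP :=
  ⟨by decide +kernel, by decide +kernel, by decide +kernel, by decide +kernel, by decide +kernel,
    bddP, nomissP⟩

/-- the polytope -/
noncomputable def polyP : SimplePolytope 4 8 := certP.poly

theorem face_polyP : ∀ s < 256, dataP.face s = true ↔ toF s ∈ polyP.complex :=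
  certP.face_iff

end Pool.Agent.H448Z.Buch
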