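import Pool.Agent.H448Z.Buch.Poly
import Pool.Agent.H448Z.Buch.DataQ

set_option autoImplicit false

namespace Pool.Agent.H448Z.Buch

/-- integer normals of the facets -/
def aQ : Fin 8 → Fin 4 → ℤ :=
  ![![-1, 1, -1, 0], ![-2, -1, 1, 2], ![-2, 1, 2, 0], ![-1, 0, 0, -2], ![1, 2, -1, 1], ![2, 2, 0, 0], ![1, -2, -1, -1], ![0, -2, 0, 1]]

/-- vertices: mask of the facets, numerators, denominator -/
def vertQ : List (ℕ × (Fin 4 → ℤ) × ℤ) := [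
  (15, ![-6, 0, -2, -1], 8),
  (23, ![-12, 13, -4, 11], 29),
  (75, ![-18, -11, -17, -3], 24),
  (147, ![-4, -3, -16, 11], 17),
  (195, ![-4, -3, -6, 1], 7),
  (45, ![-6, 20, -2, -11], 28),
  (53, ![-3, 10, -1, -4], 14),
  (57, ![0, 1, -1, -1], 2),
  (89, ![1, 2, -6, -4], 7),
  (209, ![-1, -2, -9, 4], 8),
  (142, ![-3, -9, 8, -5], 13),
  (54, ![3, 8, 10, 13], 22),
  (166, ![11, -4, 20, 6], 14),
  (202, ![-1, -2, 1, -1], 3),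
  (178, ![9, -1, 5, 14], 16),
  (108, ![14, -6, 25, -15], 16),
  (204, ![-1, -5, 5, -3], 7),
  (228, ![17, -10, 29, -6], 14),
  (120, ![2, 3, -8, -6], 10),
  (240, ![3, -1, -1, 2], 4)]

/-- points in the relative interiors of the facets -/
def fptQ : Fin 8 → (Fin 4 → ℤ) × ℤ :=
  ![(![-1, 0, -1, 0], 2), (![0, 0, 0, 1], 2), (![0, 0, 1, 0], 2), (![0, 0, 0, -1], 2), (![0, 0, -1, 1], 2), (![1, 0, 0, 0], 2), (![1, -1, 2, -1], 2), (![1, -1, 2, 0], 2)]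

/-- missing triangles -/
def missQ : List (Fin 8 × Fin 8 × Fin 8) :=
  [(0, 1, 5), (0, 2, 6), (0, 2, 7), (0, 3, 7), (0, 5, 6), (0, 5, 7), (1, 2, 6), (1, 3, 4), (1, 3, 5), (1, 4, 6), (1, 5, 6), (2, 3, 4), (2, 4, 6), (2, 4, 7), (3, 4, 7), (3, 5, 7)]

theorem dotQ0 (x : Fin 4 → ℝ) : cst aQ 0 ⬝ᵥ x = (-1) * x 0 + (1) * x 1 + (-1) * x 2 + (0) * x 3 := by
  simp [cst, aQ, dotProduct, Fin.sum_univ_four]

theorem dotQ1 (x : Fin 4 → ℝ) : cst aQ 1 ⬝ᵥ x = (-2) * x 0 + (-1) * x 1 + (1) * x 2 + (2) * x 3 := by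
  simp [cst, aQ, dotProduct, Fin.sum_univ_four]

theorem dotQ2 (x : Fin 4 → ℝ) : cst aQ 2 ⬝ᵥ x = (-2) * x 0 + (1) * x 1 + (2) * x 2 + (0) * x 3 := by
  simp [cst, aQ, dotProduct, Fin.sum_univ_four]

theorem dotQ3 (x : Fin 4 → ℝ) : cst aQ 3 ⬝ᵥ x = (-1) * x 0 + (0) * x 1 + (0) * x 2 + (-2) * x 3 := by
  simp [cst, aQ, dotProduct, Fin.sum_univ_four]

theorem dotQ4 (x : Fin 4 → ℝ) : cst aQ 4 ⬝ᵥ x = (1) * x 0 + (2) * x 1 + (-1) * x 2 + (1) * x 3 := by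
  simp [cst, aQ, dotProduct, Fin.sum_univ_four]

theorem dotQ5 (x : Fin 4 → ℝ) : cst aQ 5 ⬝ᵥ x = (2) * x 0 + (2) * x 1 + (0) * x 2 + (0) * x 3 := by
  simp [cst, aQ, dotProduct, Fin.sum_univ_four]

theorem dotQ6 (x : Fin 4 → ℝ) : cst aQ 6 ⬝ᵥ x = (1) * x 0 + (-2) * x 1 + (-1) * x 2 + (-1) * x 3 := by
  simp [cst, aQ, dotProduct, Fin.sum_univ_four]

theorem dotQ7 (x : Fin 4 → ℝ) : cst aQ 7 ⬝ᵥ x = (0) * x 0 + (-2) * x 1 + (0) * x 2 + (1) * x 3 := by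
  simp [cst, aQ, dotProduct, Fin.sum_univ_four]

theorem bddQ (x : Fin 4 → ℝ) (hx : x ∈ polyhedron (cst aQ) 1) (j : Fin 4) : |x j| ≤ 3 := by
  have h0 := hx 0
  have h1 := hx 1
  have h2 := hx 2
  have h3 := hx 3
  have h4 := hx 4
  have h5 := hx 5
  have h6 := hx 6
  have h7 := hx 7
  simp only [dotQ0, dotQ1, dotQ2, dotQ3, dotQ4, dotQ5, dotQ6, dotQ7, Pi.one_apply] at h0 h1 h2 h3 h4 h5 h6 h7
  rw [abs_le]
  fin_cases j <;> constructor <;> simp only [Fin.zero_eta, Fin.mk_one, Fin.reduceFinMk] <;> linarith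

theorem nomissQ (x : Fin 4 → ℝ) (hx : x ∈ polyhedron (cst aQ) 1) :
    ∀ T ∈ missQ, ¬ (cst aQ T.1 ⬝ᵥ x = 1 ∧ cst aQ T.2.1 ⬝ᵥ x = 1 ∧ cst aQ T.2.2 ⬝ᵥ x = 1) := by
  have h0 := hx 0
  have h1 := hx 1
  have h2 := hx 2
  have h3 := hx 3
  have h4 := hx 4
  have h5 := hx 5
  have h6 := hx 6
  have h7 := hx 7
  simp only [dotQ0, dotQ1, dotQ2, dotQ3, dotQ4, dotQ5, dotQ6, dotQ7, Pi.one_apply] at h0 h1 h2 h3 h4 h5 h6 h7
  simp only [missQ, List.forall_mem_cons, List.not_mem_nil, false_imp_iff, implies_true, and_true,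
    dotQ0, dotQ1, dotQ2, dotQ3, dotQ4, dotQ5, dotQ6, dotQ7]
  refine ⟨?_, ?_, ?_, ?_, ?_, ?_, ?_, ?_, ?_, ?_, ?_, ?_, ?_, ?_, ?_, ?_⟩ <;> rintro ⟨e1, e2, e3⟩ <;> linarith

theorem certQ : PCert aQ dataQ.face vertQ fptQ missQ :=
  ⟨by decide +kernel, by decide +kernel, by decide +kernel, by decide +kernel, by decide +kernel,
    bddQ, nomissQ⟩

/-- the polytope -/
noncomputable def polyQ : SimplePolytope 4 8 := certQ.poly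

theorem face_polyQ : ∀ s < 256, dataQ.face s = true ↔ toF s ∈ polyQ.complex :=
  certQ.face_iff

end Pool.Agent.H448Z.Buch
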