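import Pool.Agent.H448Z.Buch.Model
import Pool.Agent.H448Z.Buch.Inv
import Pool.Agent.H448Z.Buch.PolyP
import Pool.Agent.H448Z.Buch.PolyQ
import Pool.Agent.H448Z.Buch.ChkP0
import Pool.Agent.H448Z.Buch.ChkP1
import Pool.Agent.H448Z.Buch.ChkP2
import Pool.Agent.H448Z.Buch.ChkP3
import Pool.Agent.H448Z.Buch.ChkQ0
import Pool.Agent.H448Z.Buch.ChkQ1
import Pool.Agent.H448Z.Buch.ChkQ2
import Pool.Agent.H448Z.Buch.ChkQ3

set_option autoImplicit false

namespace Pool.Agent.H448Z.Buch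

open MvPolynomial

universe u

section SR

variable (k : Type u) [Field k] {m : ℕ} (K : Set (Finset (Fin m)))

theorem srIdeal_eq : srIdeal k K
    = Ideal.span ((fun s => monomial s (1 : k)) '' {s | ∃ σ, σ ∉ K ∧ s = ind σ}) := by
  unfold srIdeal
  congr 1
  ext p
  constructor
  · rintro ⟨σ, h, rfl⟩
    exact ⟨ind σ, ⟨σ, h, rfl⟩, (prod_X_eq k σ).symm⟩
  · rintro ⟨_, ⟨σ, h, rfl⟩, rfl⟩
    exact ⟨σ, h, (prod_X_eq k σ).symm⟩

theorem isSR (hK : ∀ σ ∈ K, ∀ τ ⊆ σ, τ ∈ K) : IsSR (toSR k K) K where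
  surj := Ideal.Quotient.mkₐ_surjective k _
  zero := by
    intro α h
    have h1 : α = (α - ind α.support) + ind α.support := by
      ext i
      simp only [Finsupp.add_apply, Finsupp.tsub_apply, ind_apply, Finsupp.mem_support_iff]
      split_ifs <;> omega
    have h2 : monomial α (1 : k) = monomial (α - ind α.support) 1 * ∏ i ∈ α.support, X i := by
      rw [prod_X_eq, monomial_mul, one_mul, ← h1]
    refine Ideal.Quotient.eq_zero_iff_mem.2 ?_
    rw [h2]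
    exact Ideal.mul_mem_left _ _ (Ideal.subset_span ⟨_, h, rfl⟩)
  lin := by
    intro W _ _ w hw
    let g0 : MvPolynomial (Fin m) k →ₗ[k] W := (basisMonomials (Fin m) k).constr k w
    have hg0 : ∀ α, g0 (monomial α 1) = w α := fun α => by
      have := (basisMonomials (Fin m) k).constr_basis k w α
      rwa [coe_basisMonomials] at this
    have hker : (srIdeal k K).restrictScalars k ≤ LinearMap.ker g0 := by
      intro p hp
      have hp' : p ∈ srIdeal k K := hp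
      rw [srIdeal_eq, mem_ideal_span_monomial_image] at hp'
      rw [LinearMap.mem_ker, p.as_sum, map_sum]
      refine Finset.sum_eq_zero fun α hα => ?_
      obtain ⟨_, ⟨σ, hσ, rfl⟩, hle⟩ := hp' α hα
      have h1 : monomial α (coeff α p) = coeff α p • monomial α (1 : k) := by
        rw [smul_monomial, smul_eq_mul, mul_one]
      rw [h1, map_smul, hg0, hw, smul_zero]
      intro hα'
      refine hσ (hK _ hα' _ fun i hi => ?_)
      have := hle i
      rw [ind_apply, if_pos hi] at this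
      rw [Finsupp.mem_support_iff]
      omega
    refine ⟨(((srIdeal k K).restrictScalars k).liftQ g0 hker).comp
      (Submodule.Quotient.restrictScalarsEquiv k (srIdeal k K)).symm.toLinearMap, fun α => ?_⟩
    rw [← hg0]
    rfl

end SR

theorem bideg_eq {k : Type u} [Field k] {m : ℕ} {R : Type u} [CommRing R] [Algebra k R]
    (π : MvPolynomial (Fin m) k →ₐ[k] R) (i j : ℕ) : bideg π i j = gbideg π i j := by
  unfold bideg gbideg
  simp only [Algebra.smul_def]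
  rfl

theorem model_of_data (k : Type u) [Field k] (P : SimplePolytope 4 8) (D : Data)
    (hface : ∀ s < 256, D.face s = true ↔ toF s ∈ P.complex)
    (h0 : ∀ j < 64, D.chkJ dI (4 * j + 0) = true) (h1 : ∀ j < 64, D.chkJ dI (4 * j + 1) = true)
    (h2 : ∀ j < 64, D.chkJ dI (4 * j + 2) = true) (h3 : ∀ j < 64, D.chkJ dI (4 * j + 3) = true)
    (hB : ∀ b, D.chkB dI dJ b = true)
    (hM : ∀ a b, D.chkM mu a b = true) (he : isZ ((-1, 0) :: D.pF 0 0) = true) :
    Nonempty (Model (d k (v (toSR k P.complex))) (bideg (toSR k P.complex)) dI dJ (fun a b => ev (eB k) (mu a b)) (eB k 0)) := by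
  have hJ : ∀ J < 256, D.chkJ dI J = true := by
    intro J hJ
    have e : J = 4 * (J / 4) + J % 4 := by omega
    have : J % 4 = 0 ∨ J % 4 = 1 ∨ J % 4 = 2 ∨ J % 4 = 3 := by omega
    rcases this with h | h | h | h <;> rw [e, h]
    · exact h0 _ (by omega)
    · exact h1 _ (by omega)
    · exact h2 _ (by omega)
    · exact h3 _ (by omega)
  obtain ⟨G⟩ := sound (isSR k P.complex P.complex_down) D hface dI dJ mu hJ hB hM he
  have hb : ∀ i j, bideg (toSR k P.complex) i j = gbideg (toSR k P.complex) i j :=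
    bideg_eq _
  exact ⟨⟨G.ι, G.p, G.h, G.dι, G.pι, G.hom, fun b => by rw [hb]; exact G.degι b,
    fun i j x hx => G.degp i j x (by rw [← hb]; exact hx), G.mul, G.one⟩⟩

theorem tor_iso (k : Type u) [Field k] : TorIso k polyP.complex polyQ.complex := by
  obtain ⟨M⟩ := model_of_data k polyP dataP face_polyP chkJ_P0 chkJ_P1 chkJ_P2 chkJ_P3 chkB_P
    chkM_P chk1_P
  obtain ⟨N⟩ := model_of_data k polyQ dataQ face_polyQ chkJ_Q0 chkJ_Q1 chkJ_Q2 chkJ_Q3 chkB_Q
    chkM_Q chk1_Q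
  exact iso_of_models M N

/-- a free subtorus for `Q` -/
def MQ : Fin 8 → Fin 4 → ℤ :=
  ![![-1, -1, -1, -1], ![-1, -1, 0, -1], ![-1, 0, -1, 0], ![-1, 0, -1, -1], ![1, 0, 0, 0], ![0, 1, 0, 0], ![0, 0, 1, 0], ![0, 0, 0, 1]]

/-- inverse minors -/
def NQ : List (ℕ × (Fin 4 → Fin 8 → ℤ)) := [
  (15, ![![0, 0, 0, 0, 1, 0, 0, 0], ![0, 0, 0, 0, 0, 1, 0, 0], ![0, 0, 0, 0, 0, 0, 1, 0], ![0, 0, 0, 0, 0, 0, 0, 1]]),
  (23, ![![0, 0, 0, -1, 0, 0, -1, -1], ![0, 0, 0, 0, 0, 1, 0, 0], ![0, 0, 0, 0, 0, 0, 1, 0], ![0, 0, 0, 0, 0, 0, 0, 1]]),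
  (75, ![![0, 0, 0, 0, 1, 0, 0, 0], ![0, 0, 0, 0, 0, 1, 0, 0], ![0, 0, -1, 0, -1, 0, 0, 0], ![0, 0, 0, 0, 0, 0, 0, 1]]),
  (147, ![![0, 0, -1, 0, 0, 0, -1, 0], ![0, 0, 0, 0, 0, 1, 0, 0], ![0, 0, 0, 0, 0, 0, 1, 0], ![0, 0, 1, -1, 0, 0, 0, 0]]),
  (195, ![![0, 0, 0, 0, 1, 0, 0, 0], ![0, 0, 0, 0, 0, 1, 0, 0], ![0, 0, -1, 0, -1, 0, 0, 0], ![0, 0, 1, -1, 0, 0, 0, 0]]),
  (45, ![![0, 0, 0, 0, 1, 0, 0, 0], ![0, -1, 0, 0, -1, 0, 0, -1], ![0, 0, 0, 0, 0, 0, 1, 0], ![0, 0, 0, 0, 0, 0, 0, 1]]),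
  (53, ![![0, 0, 0, -1, 0, 0, -1, -1], ![0, -1, 0, 1, 0, 0, 1, 0], ![0, 0, 0, 0, 0, 0, 1, 0], ![0, 0, 0, 0, 0, 0, 0, 1]]),
  (57, ![![0, 0, -1, 0, 0, 0, -1, 0], ![0, -1, 1, 0, 0, 0, 1, -1], ![0, 0, 0, 0, 0, 0, 1, 0], ![0, 0, 0, 0, 0, 0, 0, 1]]),
  (89, ![![0, -1, 0, 0, 0, -1, 0, -1], ![0, 0, 0, 0, 0, 1, 0, 0], ![0, 1, -1, 0, 0, 1, 0, 1], ![0, 0, 0, 0, 0, 0, 0, 1]]),
  (209, ![![0, -1, -1, 1, 0, -1, 0, 0], ![0, 0, 0, 0, 0, 1, 0, 0], ![0, 1, 0, -1, 0, 1, 0, 0], ![0, 0, 1, -1, 0, 0, 0, 0]]),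
  (142, ![![0, 0, 0, 0, 1, 0, 0, 0], ![0, 0, 0, 0, 0, 1, 0, 0], ![0, 0, 0, 0, 0, 0, 1, 0], ![-1, 0, 0, 0, -1, -1, -1, 0]]),
  (54, ![![0, 0, 0, -1, 0, 0, -1, -1], ![-1, 0, 0, 1, 0, 0, 0, 0], ![0, 0, 0, 0, 0, 0, 1, 0], ![0, 0, 0, 0, 0, 0, 0, 1]]),
  (166, ![![0, 0, 0, 0, 1, 0, 0, 0], ![-1, 0, 0, 1, 0, 0, 0, 0], ![0, 0, 0, 0, 0, 0, 1, 0], ![0, 0, 0, -1, -1, 0, -1, 0]]),
  (202, ![![0, 0, 0, 0, 1, 0, 0, 0], ![0, 0, 0, 0, 0, 1, 0, 0], ![0, 0, -1, 0, -1, 0, 0, 0], ![-1, 0, 1, 0, 0, -1, 0, 0]]),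
  (178, ![![0, 0, -1, 0, 0, 0, -1, 0], ![-1, 0, 0, 1, 0, 0, 0, 0], ![0, 0, 0, 0, 0, 0, 1, 0], ![0, 0, 1, -1, 0, 0, 0, 0]]),
  (108, ![![0, 0, 0, 0, 1, 0, 0, 0], ![0, -1, 0, 0, -1, 0, 0, -1], ![-1, 1, 0, 0, 0, 0, 0, 0], ![0, 0, 0, 0, 0, 0, 0, 1]]),
  (204, ![![0, 0, 0, 0, 1, 0, 0, 0], ![0, 0, 0, 0, 0, 1, 0, 0], ![-1, 1, 0, 0, 0, 0, 0, 0], ![0, -1, 0, 0, -1, -1, 0, 0]]),
  (228, ![![0, 0, 0, 0, 1, 0, 0, 0], ![-1, 0, 0, 1, 0, 0, 0, 0], ![-1, 1, 0, 0, 0, 0, 0, 0], ![1, -1, 0, -1, -1, 0, 0, 0]]),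
  (120, ![![1, -1, -1, 0, 0, 0, 0, 0], ![-1, 0, 1, 0, 0, 0, 0, -1], ![-1, 1, 0, 0, 0, 0, 0, 0], ![0, 0, 0, 0, 0, 0, 0, 1]]),
  (240, ![![1, -1, -1, 0, 0, 0, 0, 0], ![-1, 0, 0, 1, 0, 0, 0, 0], ![-1, 1, 0, 0, 0, 0, 0, 0], ![0, 0, 1, -1, 0, 0, 0, 0]])]

theorem NQ_ok : ∀ t ∈ NQ, (∀ j, ∀ i : Fin 8, t.1.testBit i = true → t.2 j i = 0) ∧
    ∀ j l, ∑ i, MQ i l * t.2 j i = if l = j then 1 else 0 := by decide +kernel

theorem NQ_cover : ∀ s < 256, dataQ.face s = true → ∃ t ∈ NQ, sub s t.1 = true := by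
  decide +kernel

theorem Q_free : ∀ σ ∈ polyQ.complex, ∃ N : Fin 4 → Fin 8 → ℤ, (∀ j, ∀ i ∈ σ, N j i = 0) ∧
    ∀ j l, ∑ i, MQ i l * N j i = if l = j then 1 else 0 := by
  intro σ hσ
  have h1 : dataQ.face (msk σ) = true := by
    rw [face_polyQ _ (toF_msk σ).2, (toF_msk σ).1]; exact hσ
  obtain ⟨t, ht, hs⟩ := NQ_cover _ (toF_msk σ).2 h1
  refine ⟨t.2, fun j i hi => (NQ_ok t ht).1 j i (sub_iff hs i ?_), (NQ_ok t ht).2⟩
  rw [← mem_toF, (toF_msk σ).1]; exact hi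

theorem Q_mem : toF 15 ∈ polyQ.complex := (face_polyQ 15 (by norm_num)).1 (by decide +kernel)

theorem P_mem : toF 15 ∈ polyP.complex := (face_polyP 15 (by norm_num)).1 (by decide +kernel)

/-- the facets of `K_P` -/
def facP : List ℕ :=
  [15, 135, 139, 29, 85, 101, 165, 89, 105, 169, 30, 86, 102, 166, 154, 210, 226, 120, 184, 240]

theorem facP_face : ∀ f ∈ facP, f < 256 ∧ dataP.face f = true := by decide +kernel

/-- the support is not contained in a facet -/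
def NF (g : Fin 8 → Bool) : Bool :=
  facP.all fun f => [0, 1, 2, 3, 4, 5, 6, 7].any fun i : Fin 8 => !(f.testBit i) && g i

/-- sum of two vectors -/
def xr (g h : Fin 8 → Bool) : Fin 8 → Bool := fun i => xor (g i) (h i)

set_option synthInstance.maxSize 100000 in
theorem no_rank4 : ∀ a0 a1 a2 a3 : Bool,
    NF ![a0, a1, a2, a3, true, false, false, false] = true → ∀ b0 b1 b2 b3 : Bool,
    NF ![b0, b1, b2, b3, false, true, false, false] = true →
    NF (xr ![a0, a1, a2, a3, true, false, false, false]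
      ![b0, b1, b2, b3, false, true, false, false]) = true → ∀ c0 c1 c2 c3 : Bool,
    NF ![c0, c1, c2, c3, false, false, true, false] = true →
    NF (xr ![a0, a1, a2, a3, true, false, false, false]
      ![c0, c1, c2, c3, false, false, true, false]) = true →
    NF (xr ![b0, b1, b2, b3, false, true, false, false]
      ![c0, c1, c2, c3, false, false, true, false]) = true →
    NF (xr (xr ![a0, a1, a2, a3, true, false, false, false]
      ![b0, b1, b2, b3, false, true, false, false])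
      ![c0, c1, c2, c3, false, false, true, false]) = true → ∀ d0 d1 d2 d3 : Bool,
    NF ![d0, d1, d2, d3, false, false, false, true] = true →
    NF (xr ![a0, a1, a2, a3, true, false, false, false]
      ![d0, d1, d2, d3, false, false, false, true]) = true →
    NF (xr ![b0, b1, b2, b3, false, true, false, false]
      ![d0, d1, d2, d3, false, false, false, true]) = true →
    NF (xr ![c0, c1, c2, c3, false, false, true, false]
      ![d0, d1, d2, d3, false, false, false, true]) = true →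
    NF (xr (xr ![a0, a1, a2, a3, true, false, false, false]
      ![b0, b1, b2, b3, false, true, false, false])
      ![d0, d1, d2, d3, false, false, false, true]) = true →
    NF (xr (xr ![a0, a1, a2, a3, true, false, false, false]
      ![c0, c1, c2, c3, false, false, true, false])
      ![d0, d1, d2, d3, false, false, false, true]) = true →
    NF (xr (xr ![b0, b1, b2, b3, false, true, false, false]
      ![c0, c1, c2, c3, false, false, true, false])
      ![d0, d1, d2, d3, false, false, false, true]) = true →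
    NF (xr (xr (xr ![a0, a1, a2, a3, true, false, false, false]
      ![b0, b1, b2, b3, false, true, false, false])
      ![c0, c1, c2, c3, false, false, true, false])
      ![d0, d1, d2, d3, false, false, false, true]) = true → False := by decide +kernel

theorem P_core (r : ℕ) (h : Core polyP.complex r) : r ≤ 3 := by
  by_contra hr
  obtain ⟨g, h1, h2⟩ := h
  let ρ : (Fin r → ℤˣ) → Fin 4 → Bool := fun c => ![g c 4, g c 5, g c 6, g c 7]
  have hinj : Function.Injective ρ := by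
    intro c c' e
    refine Core.inj h1 h2 P_mem fun i hi => ?_
    have e0 := congrFun e 0
    have e1 := congrFun e 1
    have e2 := congrFun e 2
    have e3 := congrFun e 3
    rw [mem_toF] at hi
    fin_cases i
    all_goals first | exact absurd (by decide) hi | assumption
  have hsurj : Function.Surjective ρ := by
    refine (hinj.bijective_of_nat_card_le ?_).2
    simp only [Nat.card_eq_fintype_card, Fintype.card_pi, Fintype.card_units_int,
      Finset.prod_const, Finset.card_univ, Fintype.card_fin, Fintype.card_bool]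
    exact Nat.pow_le_pow_right (by norm_num) (by omega)
  have hone : ∀ i, g 1 i = false := fun i => by
    have := h1 1 1 i
    rw [mul_one] at this
    simpa using this
  have hNF : ∀ c, (∃ i, g c i = true) → NF (g c) = true := by
    rintro c ⟨i, hi⟩
    have hc : c ≠ 1 := by
      rintro rfl
      rw [hone] at hi
      exact absurd hi (by simp)
    unfold NF
    rw [List.all_eq_true]
    intro f hf
    obtain ⟨j, hj, hg⟩ := h2 c hc (toF f) ((face_polyP f (facP_face f hf).1).1 (facP_face f hf).2)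
    rw [List.any_eq_true]
    refine ⟨j, by fin_cases j <;> simp, ?_⟩
    rw [mem_toF] at hj
    simp [hj, hg]
  have hx : ∀ c c', g (c * c') = xr (g c) (g c') := fun c c' => funext fun i => h1 c c' i
  have form : ∀ c (w : Fin 4 → Bool), ρ c = w →
      g c = ![g c 0, g c 1, g c 2, g c 3, w 0, w 1, w 2, w 3] := by
    rintro c w rfl
    funext i
    fin_cases i <;> rfl
  obtain ⟨a, ha⟩ := hsurj ![true, false, false, false]
  obtain ⟨b, hb⟩ := hsurj ![false, true, false, false]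
  obtain ⟨c, hc⟩ := hsurj ![false, false, true, false]
  obtain ⟨d, hd⟩ := hsurj ![false, false, false, true]
  have fa : g a = ![g a 0, g a 1, g a 2, g a 3, true, false, false, false] := form a _ ha
  have fb : g b = ![g b 0, g b 1, g b 2, g b 3, false, true, false, false] := form b _ hb
  have fc : g c = ![g c 0, g c 1, g c 2, g c 3, false, false, true, false] := form c _ hc
  have fd : g d = ![g d 0, g d 1, g d 2, g d 3, false, false, false, true] := form d _ hd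
  have a4 : g a 4 = true := by rw [fa]; rfl
  have a5 : g a 5 = false := by rw [fa]; rfl
  have a6 : g a 6 = false := by rw [fa]; rfl
  have a7 : g a 7 = false := by rw [fa]; rfl
  have b5 : g b 5 = true := by rw [fb]; rfl
  have b6 : g b 6 = false := by rw [fb]; rfl
  have b7 : g b 7 = false := by rw [fb]; rfl
  have c6 : g c 6 = true := by rw [fc]; rfl
  have c7 : g c 7 = false := by rw [fc]; rfl
  have d7 : g d 7 = true := by rw [fd]; rfl
  refine no_rank4 (g a 0) (g a 1) (g a 2) (g a 3) ?_ (g b 0) (g b 1) (g b 2) (g b 3) ?_ ?_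
    (g c 0) (g c 1) (g c 2) (g c 3) ?_ ?_ ?_ ?_ (g d 0) (g d 1) (g d 2) (g d 3)
    ?_ ?_ ?_ ?_ ?_ ?_ ?_ ?_
  all_goals simp only [← fa, ← fb, ← fc, ← fd, ← hx]
  · exact hNF _ ⟨4, a4⟩
  · exact hNF _ ⟨5, b5⟩
  · exact hNF _ ⟨5, by simp [h1, a5, b5]⟩
  · exact hNF _ ⟨6, c6⟩
  · exact hNF _ ⟨6, by simp [h1, a6, c6]⟩
  · exact hNF _ ⟨6, by simp [h1, b6, c6]⟩
  · exact hNF _ ⟨6, by simp [h1, a6, b6, c6]⟩
  · exact hNF _ ⟨7, d7⟩
  · exact hNF _ ⟨7, by simp [h1, a7, d7]⟩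
  · exact hNF _ ⟨7, by simp [h1, b7, d7]⟩
  · exact hNF _ ⟨7, by simp [h1, c7, d7]⟩
  · exact hNF _ ⟨7, by simp [h1, a7, b7, d7]⟩
  · exact hNF _ ⟨7, by simp [h1, a7, c7, d7]⟩
  · exact hNF _ ⟨7, by simp [h1, b7, c7, d7]⟩
  · exact hNF _ ⟨7, by simp [h1, a7, b7, c7, d7]⟩

theorem buch_lt : buch polyP.complex < buch polyQ.complex :=
  lt_of_le_of_lt (buch_le 3 P_core) (le_buch MQ Q_mem Q_free)

theorem buchR_lt : buchR polyP.complex < buchR polyQ.complex :=
  lt_of_le_of_lt (buchR_le 3 P_core) (le_buchR MQ Q_mem Q_free)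

end Pool.Agent.H448Z.Buch
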