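import Pool.Agent.H448Z.Buch.Defs
import Pool.Agent.H448Z.Buch.Ext

/-!
A finite model of the cohomology of the Koszul algebra determines the bigraded algebra.
-/

set_option autoImplicit false

namespace Pool.Agent.H448Z.Buch

universe u

open MvPolynomial

variable {k : Type u} [Field k] {m : ℕ} {A : Type u} [Ring A] [Algebra k A]

/-- a deformation retraction of the Koszul algebra on a finite dimensional space -/
structure Model (δ : Diff k A) (G : ℕ → ℕ → Submodule k A) {B : Type} [Fintype B] [DecidableEq B]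
    (dI dJ : B → ℕ) (μ : B → B → B → k) (e : B → k) where
  ι : B → A
  p : A →ₗ[k] (B → k)
  h : A →ₗ[k] A
  dι : ∀ b, δ.D (ι b) = 0
  pι : ∀ b, p (ι b) = Pi.single b 1
  hom : ∀ x, x = ∑ b, p x b • ι b + δ.D (h x) + h (δ.D x)
  degι : ∀ b, ι b ∈ G (dI b) (dJ b)
  degp : ∀ i j, ∀ x ∈ G i j, ∀ b, (dI b ≠ i ∨ dJ b ≠ j) → p x b = 0
  mul : ∀ a b, p (ι a * ι b) = μ a b
  one : p 1 = e

theorem linInd_gen {A B : Type*} [Ring A] [Algebra k A] [Fintype B] (f : B → A)
    (h : ∀ c : B → k, ∑ b, c b • f b = 0 → ∀ b, c b = 0) : LinearIndependent k f :=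
  Fintype.linearIndependent_iff.2 h

namespace Model

variable {δ : Diff k A} {G : ℕ → ℕ → Submodule k A} {B : Type} [Fintype B] [DecidableEq B]
  {dI dJ : B → ℕ} {μ : B → B → B → k} {e : B → k} (M : Model δ G dI dJ μ e)

theorem p_sum (c : B → k) : M.p (∑ b, c b • M.ι b) = c := by
  rw [map_sum]
  simp only [map_smul, M.pι]
  ext b
  simp [Finset.sum_apply, Pi.single_apply]

theorem d_sum (c : B → k) : δ.D (∑ b, c b • M.ι b) = 0 := by
  rw [map_sum]
  simp only [map_smul, M.dι, smul_zero, Finset.sum_const_zero]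

theorem p_d (x : A) : M.p (δ.D x) = 0 := by
  have h1 := M.hom (δ.D x)
  have h2 := congrArg (δ.D) (M.hom x)
  rw [map_add, map_add, M.d_sum, δ.sq, zero_add, zero_add] at h2
  rw [δ.sq, map_zero, add_zero, ← h2] at h1
  have h3 : ∑ b, M.p (δ.D x) b • M.ι b = 0 := by
    have := h1
    rw [eq_comm, add_eq_right] at this
    exact this
  have h4 := congrArg M.p h3
  rwa [M.p_sum, map_zero] at h4

/-- the basic cocycles -/
def z (b : B) : δ.Cyc := ⟨M.ι b, M.dι b⟩

/-- their classes -/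
noncomputable def cls (b : B) : δ.HAlg := δ.cls (M.z b)

theorem incl_z (b : B) : δ.incl (M.z b) = M.ι b := rfl

theorem incl_sum (c : B → k) : δ.incl (∑ b, c b • M.z b) = ∑ b, c b • M.ι b := by
  rw [map_sum]
  simp only [map_smul, incl_z]

theorem cls_sum (c : B → k) : δ.cls (∑ b, c b • M.z b) = ∑ b, c b • M.cls b := by
  rw [map_sum]
  simp only [map_smul, cls]

theorem mk_eq (x : δ.Cyc) :
    δ.cls x = ∑ b, M.p (δ.incl x) b • M.cls b := by
  have h1 := M.hom (δ.incl x)
  rw [δ.D_incl, map_zero, add_zero] at h1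
  rw [← M.cls_sum]
  refine Ideal.Quotient.eq.2 ⟨M.h (δ.incl x), ?_⟩
  rw [map_sub, M.incl_sum]
  exact eq_sub_of_add_eq' h1.symm

theorem linInd : LinearIndependent k M.cls := by
  refine linInd_gen _ fun c hc => ?_
  rw [← M.cls_sum] at hc
  obtain ⟨y, hy⟩ := Ideal.Quotient.eq_zero_iff_mem.1 hc
  rw [M.incl_sum] at hy
  have h4 := congrArg M.p hy
  rw [M.p_d, M.p_sum] at h4
  intro b
  rw [← h4]; rfl

theorem span_top : ⊤ ≤ Submodule.span k (Set.range M.cls) := by
  intro t _
  obtain ⟨x, rfl⟩ : ∃ x, δ.cls x = t := Ideal.Quotient.mkₐ_surjective k δ.bdry t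
  rw [M.mk_eq]
  exact Submodule.sum_mem _ fun b _ => Submodule.smul_mem _ _ (Submodule.subset_span ⟨b, rfl⟩)

/-- basis of the cohomology -/
noncomputable def basis : Module.Basis B k (δ.HAlg) := Module.Basis.mk M.linInd M.span_top

theorem basis_apply (b : B) : M.basis b = M.cls b := Module.Basis.mk_apply _ _ _

theorem cls_mul (a b : B) : M.cls a * M.cls b = ∑ c, μ a b c • M.cls c := by
  have := M.mk_eq (M.z a * M.z b)
  rw [map_mul, map_mul, incl_z, incl_z, M.mul] at this
  exact this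

theorem one_eq : (1 : δ.HAlg) = ∑ c, e c • M.cls c := by
  have := M.mk_eq 1
  rwa [map_one, map_one, M.one] at this

theorem tor_eq (i j : ℕ) :
    δ.HSub (G i j) = Submodule.span k (M.cls '' {b | dI b = i ∧ dJ b = j}) := by
  apply le_antisymm
  · rintro _ ⟨x, hx, rfl⟩
    have hx' : δ.incl x ∈ G i j := hx
    change δ.cls x ∈ _
    rw [M.mk_eq]
    refine Submodule.sum_mem _ fun b _ => ?_
    by_cases hb : dI b = i ∧ dJ b = j
    · exact Submodule.smul_mem _ _ (Submodule.subset_span ⟨b, hb, rfl⟩)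
    · rw [M.degp i j _ hx' b (by tauto), zero_smul]
      exact Submodule.zero_mem _
  · rw [Submodule.span_le]
    rintro _ ⟨b, ⟨rfl, rfl⟩, rfl⟩
    exact ⟨M.z b, M.degι b, rfl⟩

end Model

theorem iso_of_models {A' : Type u} [Ring A'] [Algebra k A'] {δ : Diff k A}
    {G : ℕ → ℕ → Submodule k A} {δ' : Diff k A'} {G' : ℕ → ℕ → Submodule k A'} {B : Type} [Fintype B] [DecidableEq B]
    {dI dJ : B → ℕ} {μ : B → B → B → k} {e : B → k}
    (M : Model δ G dI dJ μ e) (N : Model δ' G' dI dJ μ e) :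
    ∃ φ : δ.HAlg ≃ₐ[k] δ'.HAlg,
      ∀ i j, (δ.HSub (G i j)).map φ.toLinearEquiv.toLinearMap = δ'.HSub (G' i j) := by
  let f : δ.HAlg ≃ₗ[k] δ'.HAlg := M.basis.equiv N.basis (Equiv.refl B)
  have hf : ∀ b, f (M.cls b) = N.cls b := fun b => by
    rw [← M.basis_apply, ← N.basis_apply]
    exact Module.Basis.equiv_apply _ _ _ _
  have h1 : f 1 = 1 := by
    rw [M.one_eq, N.one_eq, map_sum]
    simp only [map_smul, hf]
  have hmul : ∀ x y, f (x * y) = f x * f y := by
    have := (LinearMap.map_mul_iff f.toLinearMap).2 (LinearMap.ext_basis M.basis M.basis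
      fun a b => by
        simp only [LinearMap.compr₂_apply, LinearMap.mul_apply', LinearMap.compl₂_apply,
          LinearMap.comp_apply, LinearEquiv.coe_coe, M.basis_apply, hf]
        rw [M.cls_mul, N.cls_mul, map_sum]
        simp only [map_smul, hf])
    exact this
  refine ⟨AlgEquiv.ofLinearEquiv f h1 hmul, fun i j => ?_⟩
  rw [M.tor_eq, N.tor_eq, Submodule.map_span, Set.image_image]
  congr 1
  refine Set.image_congr fun b _ => ?_
  exact hf b

theorem betti_eq_of_iso {K L : Set (Finset (Fin m))} (φ : TorAlg k K ≃ₐ[k] TorAlg k L)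
    (h : ∀ i j, (Tor k K i j).map φ.toLinearEquiv.toLinearMap = Tor k L i j) (i j : ℕ) :
    betti k K i j = betti k L i j := by
  unfold betti
  rw [← h i j, LinearEquiv.finrank_map_eq]

end Pool.Agent.H448Z.Buch
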