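import Pool.Agent.H448Z.Buch.Defs
import Pool.Agent.H448Z.Buch.Check

/-!
Certificates for simple four-dimensional polytopes with eight facets.
-/

set_option autoImplicit false

namespace Pool.Agent.H448Z.Buch

open Classical in
theorem card_active_ge {n m : ℕ} (a : Fin m → Fin n → ℝ) (b : Fin m → ℝ) (x : Fin n → ℝ)
    (hx : x ∈ (polyhedron a b).extremePoints ℝ) :
    n ≤ (Finset.univ.filter fun i => a i ⬝ᵥ x = b i).card := by
  by_contra hlt
  push Not at hlt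
  set A := Finset.univ.filter fun i => a i ⬝ᵥ x = b i with hA
  let f : (Fin n → ℝ) →ₗ[ℝ] (A → ℝ) :=
    { toFun := fun y i => a i ⬝ᵥ y
      map_add' := fun y z => by ext i; simp
      map_smul' := fun c y => by ext i; simp }
  have hker : LinearMap.ker f ≠ ⊥ := LinearMap.ker_ne_bot_of_finrank_lt (by simpa using hlt)
  obtain ⟨w, hw, hw0⟩ := Submodule.exists_mem_ne_zero_of_ne_bot hker
  have hw' : ∀ i, a i ⬝ᵥ x = b i → a i ⬝ᵥ w = 0 := fun i hi =>
    congrFun (LinearMap.mem_ker.1 hw) ⟨i, by simp [hA, hi]⟩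
  have hev : ∀ᶠ t in nhds (0 : ℝ), x + t • w ∈ polyhedron a b := by
    refine Filter.eventually_all.2 fun i => ?_
    by_cases hi : a i ⬝ᵥ x = b i
    · exact Filter.Eventually.of_forall fun t => by simp [hi, hw' i hi]
    · have hlt' : a i ⬝ᵥ x < b i := lt_of_le_of_ne (hx.1 i) hi
      have hc : Continuous fun t : ℝ => a i ⬝ᵥ (x + t • w) := by fun_prop
      have := hc.continuousAt (x := 0) |>.eventually_lt continuousAt_const
        (g := fun _ => b i) (by simpa using hlt')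
      exact this.mono fun t ht => ht.le
  obtain ⟨ε, hε, hball⟩ := Metric.eventually_nhds_iff.1 hev
  have h1 := hball (y := ε / 2) (by rw [Real.dist_eq, sub_zero, abs_of_pos] <;> linarith)
  have h2 := hball (y := -(ε / 2)) (by rw [Real.dist_eq, sub_zero, abs_neg, abs_of_pos] <;> linarith)
  have h3 := hx.2 h1 h2 ⟨1 / 2, 1 / 2, by norm_num, by norm_num, by norm_num, by
    ext j; simp; ring⟩
  have h4 : (ε / 2) • w = 0 := by simpa using h3
  rcases smul_eq_zero.1 h4 with h | h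
  · linarith
  · exact hw0 h

theorem SimplePolytope.complex_down {n m : ℕ} (P : SimplePolytope n m) :
    ∀ σ ∈ P.complex, ∀ τ ⊆ σ, τ ∈ P.complex := by
  rintro σ ⟨x, hx, h⟩ τ hτ
  exact ⟨x, hx, fun i hi => h i (hτ hi)⟩

/-- cast of an integer matrix -/
def cst (a : Fin 8 → Fin 4 → ℤ) : Fin 8 → Fin 4 → ℝ := fun i j => a i j

/-- integer dot product -/
def dz (a b : Fin 4 → ℤ) : ℤ := a 0 * b 0 + a 1 * b 1 + a 2 * b 2 + a 3 * b 3

theorem dot_rat (a : Fin 8 → Fin 4 → ℤ) (i : Fin 8) (y : Fin 4 → ℤ) (q : ℤ) :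
    cst a i ⬝ᵥ (fun j => (y j : ℝ) / q) = (dz (a i) y : ℝ) / q := by
  simp [cst, dz, dotProduct, Fin.sum_univ_four]
  ring

/-- certificate for a polytope -/
structure PCert (a : Fin 8 → Fin 4 → ℤ) (face : ℕ → Bool) (vert : List (ℕ × (Fin 4 → ℤ) × ℤ))
    (fpt : Fin 8 → (Fin 4 → ℤ) × ℤ) (miss : List (Fin 8 × Fin 8 × Fin 8)) : Prop where
  hv : ∀ t ∈ vert, 0 < t.2.2 ∧ ∀ i : Fin 8, dz (a i) t.2.1 ≤ t.2.2 ∧
    (t.1.testBit i = true → dz (a i) t.2.1 = t.2.2)
  hf : ∀ i, 0 < (fpt i).2 ∧ dz (a i) (fpt i).1 = (fpt i).2 ∧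
    ∀ j, j ≠ i → dz (a j) (fpt i).1 < (fpt i).2
  h1 : ∀ s < 256, face s = true → ∃ t ∈ vert, sub s t.1 = true
  h2 : ∀ s < 256, face s = false →
    ∃ T ∈ miss, s.testBit T.1 = true ∧ s.testBit T.2.1 = true ∧ s.testBit T.2.2 = true
  h3 : ∀ s < 256, face s = true → (bits s).length ≤ 4
  bdd : ∀ x ∈ polyhedron (cst a) 1, ∀ j, |x j| ≤ 3
  nomiss : ∀ x ∈ polyhedron (cst a) 1, ∀ T ∈ miss,
    ¬ (cst a T.1 ⬝ᵥ x = 1 ∧ cst a T.2.1 ⬝ᵥ x = 1 ∧ cst a T.2.2 ⬝ᵥ x = 1)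

namespace PCert

variable {a : Fin 8 → Fin 4 → ℤ} {face : ℕ → Bool} {vert : List (ℕ × (Fin 4 → ℤ) × ℤ)}
  {fpt : Fin 8 → (Fin 4 → ℤ) × ℤ} {miss : List (Fin 8 × Fin 8 × Fin 8)}
  (h : PCert a face vert fpt miss)

include h

theorem face_iff' (s : ℕ) (hs : s < 256) :
    face s = true ↔ ∃ x ∈ polyhedron (cst a) 1, ∀ i ∈ toF s, cst a i ⬝ᵥ x = (1 : Fin 8 → ℝ) i := by
  constructor
  · intro hf
    obtain ⟨t, ht, hsub⟩ := h.h1 s hs hf
    obtain ⟨hq, hv⟩ := h.hv t ht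
    have hq' : (0 : ℝ) < t.2.2 := by exact_mod_cast hq
    refine ⟨fun j => (t.2.1 j : ℝ) / t.2.2, fun i => ?_, fun i hi => ?_⟩
    · rw [dot_rat, Pi.one_apply, div_le_one hq']
      exact_mod_cast (hv i).1
    · rw [dot_rat, Pi.one_apply, (hv i).2 (sub_iff hsub i ((mem_toF s i).1 hi)), div_self hq'.ne']
  · rintro ⟨x, hx, hxs⟩
    by_contra hf
    obtain ⟨T, hT, t1, t2, t3⟩ := h.h2 s hs (by simpa using hf)
    exact h.nomiss x hx T hT ⟨hxs _ ((mem_toF _ _).2 t1), hxs _ ((mem_toF _ _).2 t2),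
      hxs _ ((mem_toF _ _).2 t3)⟩

open Classical in
/-- the polytope of a certificate -/
noncomputable def poly : SimplePolytope 4 8 where
  a := cst a
  b := 1
  bounded := by
    refine (Metric.isBounded_closedBall (x := (0 : Fin 4 → ℝ)) (r := 3)).subset fun x hx => ?_
    rw [mem_closedBall_zero_iff, pi_norm_le_iff_of_nonneg (by norm_num)]
    exact fun j => h.bdd x hx j
  interior := ⟨0, fun i => by simp⟩
  facet := fun i => by
    obtain ⟨hq, h1, h2⟩ := h.hf i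
    have hq' : (0 : ℝ) < (fpt i).2 := by exact_mod_cast hq
    refine ⟨fun j => ((fpt i).1 j : ℝ) / (fpt i).2, ?_, fun j hj => ?_⟩
    · rw [dot_rat, h1, Pi.one_apply, div_self hq'.ne']
    · rw [dot_rat, Pi.one_apply, div_lt_one hq']
      exact_mod_cast h2 j hj
  simple := fun x hx => by
    refine le_antisymm ?_ (card_active_ge _ _ x hx)
    set A := Finset.univ.filter fun i => cst a i ⬝ᵥ x = (1 : Fin 8 → ℝ) i with hA
    have h1 : face (msk A) = true := by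
      rw [h.face_iff' _ (toF_msk A).2, (toF_msk A).1]
      exact ⟨x, hx.1, fun i hi => by simpa [hA] using hi⟩
    have h2 := h.h3 _ (toF_msk A).2 h1
    rwa [← card_toF, (toF_msk A).1] at h2

theorem face_iff : ∀ s < 256, face s = true ↔ toF s ∈ h.poly.complex := h.face_iff'

end PCert

end Pool.Agent.H448Z.Buch
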